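import Pool.Agent.X306.LP.WDefs
import Pool.Agent.H503R3.QCI.Hilb

/-!
# Quotients by regular sequences of forms
-/

set_option autoImplicit false

open Module MvPolynomial

universe u v

namespace Pool.Agent.X306.LP

open H503R3.QCI

variable {K : Type u} [Field K] {n : ℕ}

/-- The image of the forms of degree `i` in the quotient by `I`. -/
noncomputable def qpart (I : Ideal (MvPolynomial (Fin n) K)) (i : ℕ) :
    Submodule K (MvPolynomial (Fin n) K ⧸ I) :=
  (homogeneousSubmodule (Fin n) K i).map (Ideal.Quotient.mkₐ K I).toLinearMap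

/-- The graded algebra `K[x_1, ..., x_n] / (f_1, ..., f_n)`, with `soc = ∑ (e_i - 1)`,
`e_i = deg f_i`. -/
noncomputable def quot (f : Fin n → MvPolynomial (Fin n) K) (e : Fin n → ℕ) : GrAlg.{u, u} K where
  A := MvPolynomial (Fin n) K ⧸ Ideal.span (Set.range f)
  part := qpart (Ideal.span (Set.range f))
  soc := ∑ i, (e i - 1)

/-- The class `CI K D` contains the quotients of `K[x_1, ..., x_r]` by the regular sequences
`f_1, ..., f_r` of forms of positive degrees in `D`. -/
def ContainsRegular (K : Type u) [Field K] (D : Set ℕ) : Prop :=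
  ∀ (r : ℕ) (f : Fin r → MvPolynomial (Fin r) K) (e : Fin r → ℕ),
    (∀ i, (f i).IsHomogeneous (e i)) → (∀ i, 1 ≤ e i) → (∀ i, e i ∈ D) →
    RingTheory.Sequence.IsRegular (MvPolynomial (Fin r) K) (List.ofFn f) → quot f e ∈ CI.{u, u} K D

variable {I : Ideal (MvPolynomial (Fin n) K)}

theorem qpart_mul (i j : ℕ) (x y : MvPolynomial (Fin n) K ⧸ I) (hx : x ∈ qpart I i)
    (hy : y ∈ qpart I j) : x * y ∈ qpart I (i + j) := by
  obtain ⟨p, hp, rfl⟩ := hx
  obtain ⟨q, hq, rfl⟩ := hy
  have hp' : p.IsHomogeneous i := hp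
  have hq' : q.IsHomogeneous j := hq
  exact ⟨p * q, hp'.mul hq', map_mul (Ideal.Quotient.mkₐ K I) p q⟩

theorem qpart_conn : qpart I 0 = Submodule.span K {1} := by
  apply le_antisymm
  · rintro _ ⟨p, hp, rfl⟩
    have h1 : p = C (coeff 0 p) := by
      rw [← homogeneousComponent_zero, homogeneousComponent_of_mem hp, if_pos rfl]
    rw [Submodule.mem_span_singleton]
    refine ⟨coeff 0 p, ?_⟩
    show coeff 0 p • 1 = (Ideal.Quotient.mkₐ K I) p
    conv_rhs => rw [h1]
    rw [show (C (coeff 0 p) : MvPolynomial (Fin n) K) = algebraMap K _ (coeff 0 p) from rfl,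
      AlgHom.commutes, Algebra.algebraMap_eq_smul_one]
  · rw [Submodule.span_le, Set.singleton_subset_iff]
    exact ⟨1, isHomogeneous_one _ _, map_one (Ideal.Quotient.mkₐ K I)⟩

theorem qpart_top : ⨆ i, qpart I i = ⊤ := by
  rw [eq_top_iff]
  rintro x -
  obtain ⟨p, rfl⟩ := Ideal.Quotient.mkₐ_surjective K I x
  rw [← sum_homogeneousComponent p, map_sum]
  refine Submodule.sum_mem _ fun i _ => Submodule.mem_iSup_of_mem i ?_
  exact ⟨_, homogeneousComponent_isHomogeneous i p, rfl⟩

theorem qpart_indep (hI : Homog I) : iSupIndep (qpart I) := by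
  rw [iSupIndep_def]
  intro k
  rw [Submodule.disjoint_def]
  rintro _ ⟨p, hp, rfl⟩ hx
  have h1 : (⨆ (j) (_ : j ≠ k), qpart I j) =
      (⨆ (j) (_ : j ≠ k), homogeneousSubmodule (Fin n) K j).map (Ideal.Quotient.mkₐ K I).toLinearMap := by
    rw [Submodule.map_iSup]
    refine iSup_congr fun j => ?_
    rw [Submodule.map_iSup]
    rfl
  rw [h1] at hx
  obtain ⟨q, hq, hqp⟩ := hx
  have h2 : (⨆ (j) (_ : j ≠ k), homogeneousSubmodule (Fin n) K j) ≤
      LinearMap.ker (homogeneousComponent (σ := Fin n) (R := K) k) := by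
    refine iSup₂_le fun j hj r hr => ?_
    rw [LinearMap.mem_ker, homogeneousComponent_of_mem hr, if_neg (Ne.symm hj)]
  have h3 : homogeneousComponent k q = 0 := LinearMap.mem_ker.1 (h2 hq)
  have h4 : p - q ∈ I := by
    have h5 : (Ideal.Quotient.mkₐ K I) q = (Ideal.Quotient.mkₐ K I) p := hqp
    exact Ideal.Quotient.eq.1 h5.symm
  have h5 := hI _ h4 k
  rw [map_sub, h3, sub_zero, homogeneousComponent_of_mem hp, if_pos rfl] at h5
  exact Ideal.Quotient.eq_zero_iff_mem.2 h5

theorem qpart_internal (hI : Homog I) : DirectSum.IsInternal (qpart I) := by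
  rw [DirectSum.isInternal_submodule_iff_iSupIndep_and_iSup_eq_top]
  exact ⟨qpart_indep hI, qpart_top⟩

theorem finrank_qpart (i : ℕ) : (finrank K (qpart I i) : ℤ) =
    finrank K (homogeneousSubmodule (Fin n) K i) - finrank K (gr I i) := by
  set g := (Ideal.Quotient.mkₐ K I).toLinearMap.domRestrict (homogeneousSubmodule (Fin n) K i) with hg
  have h1 := LinearMap.finrank_range_add_finrank_ker g
  have h2 : LinearMap.range g = qpart I i := LinearMap.range_domRestrict _ _
  have h3 : LinearMap.ker g = (gr I i).comap (homogeneousSubmodule (Fin n) K i).subtype := by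
    ext x
    rw [LinearMap.mem_ker, Submodule.mem_comap]
    constructor
    · intro hx
      exact mem_gr.2 ⟨Ideal.Quotient.eq_zero_iff_mem.1 hx, x.2⟩
    · intro hx
      exact Ideal.Quotient.eq_zero_iff_mem.2 (mem_gr.1 hx).1
  have h4 : finrank K (LinearMap.ker g) = finrank K (gr I i) := by
    rw [h3]
    exact (Submodule.comapSubtypeEquivOfLe (inf_le_right : gr I i ≤ _)).finrank_eq
  rw [h2, h4] at h1
  omega

section cip

theorem coeff_geom (e m : ℕ) : (∑ k ∈ Finset.range e, (Polynomial.X : Polynomial ℤ) ^ k).coeff m =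
    if m < e then 1 else 0 := by
  rw [Polynomial.finset_sum_coeff]
  simp only [Polynomial.coeff_X_pow]
  rw [Finset.sum_ite_eq (Finset.range e) m]
  simp only [Finset.mem_range]

theorem geom_monic {e : ℕ} (he : 1 ≤ e) :
    (∑ k ∈ Finset.range e, (Polynomial.X : Polynomial ℤ) ^ k).Monic ∧
    (∑ k ∈ Finset.range e, (Polynomial.X : Polynomial ℤ) ^ k).natDegree = e - 1 := by
  obtain ⟨k, rfl⟩ : ∃ k, e = k + 1 := ⟨e - 1, by omega⟩
  constructor
  · exact Polynomial.Monic.geom_sum' Polynomial.monic_X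
      (by rw [Polynomial.degree_X]; exact one_pos) k.succ_ne_zero
  · rw [Nat.add_sub_cancel]
    induction k with
    | zero => simp
    | succ k ih =>
      rw [Finset.sum_range_succ, Polynomial.natDegree_add_eq_right_of_natDegree_lt,
        Polynomial.natDegree_X_pow]
      rw [ih (by omega), Polynomial.natDegree_X_pow]
      exact Nat.lt_succ_self k

theorem geom_reverse {e : ℕ} (he : 1 ≤ e) :
    (∑ k ∈ Finset.range e, (Polynomial.X : Polynomial ℤ) ^ k).reverse =
      ∑ k ∈ Finset.range e, (Polynomial.X : Polynomial ℤ) ^ k := by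
  ext m
  rw [Polynomial.coeff_reverse, (geom_monic he).2, coeff_geom, coeff_geom]
  rcases Nat.lt_or_ge m e with h | h
  · rw [Polynomial.revAt_le (by omega), if_pos (by omega), if_pos h]
  · rw [Polynomial.revAt_eq_self_of_lt (by omega)]

theorem prod_reverse {ι : Type} (s : Finset ι) (g : ι → Polynomial ℤ) (h : ∀ i, (g i).reverse = g i) :
    (∏ i ∈ s, g i).reverse = ∏ i ∈ s, g i := by
  classical
  induction s using Finset.induction_on with
  | empty =>
    rw [Finset.prod_empty]
    exact Polynomial.reverse_C 1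
  | insert a s ha ih =>
    rw [Finset.prod_insert ha, Polynomial.reverse_mul_of_domain, h, ih]

theorem cip_symm {e : Fin n → ℕ} (he : ∀ i, 1 ≤ e i) (i : ℕ) (hi : i ≤ ∑ i, (e i - 1)) :
    (cip e).coeff i = (cip e).coeff (∑ i, (e i - 1) - i) := by
  have hdeg : (cip e).natDegree = ∑ i, (e i - 1) := by
    rw [cip, Polynomial.natDegree_prod_of_monic _ _ (fun i _ => (geom_monic (he i)).1)]
    exact Finset.sum_congr rfl fun i _ => (geom_monic (he i)).2
  have h1 : (cip e).reverse = cip e := prod_reverse _ _ fun i => geom_reverse (he i)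
  conv_lhs => rw [← h1]
  rw [Polynomial.coeff_reverse, hdeg, Polynomial.revAt_le hi]

end cip

theorem quot_mem_CI (D : Set ℕ) (f : Fin n → MvPolynomial (Fin n) K) (e : Fin n → ℕ)
    (hf : ∀ i, (f i).IsHomogeneous (e i)) (he : ∀ i, 1 ≤ e i) (hD : ∀ i, e i ∈ D)
    (hreg : RingTheory.Sequence.IsRegular (MvPolynomial (Fin n) K) (List.ofFn f)) :
    quot f e ∈ CI.{u, u} K D := by
  have hR := reg_of_isWeaklyRegular hreg.toIsWeaklyRegular
  have hI : Homog (Ideal.span (Set.range f)) := homog_span (by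
    rintro _ ⟨i, rfl⟩
    exact ⟨e i, hf i⟩)
  have hs := isSocleDegree_ci f e hf he hR
  have hHS := HS_ci f e hf hR
  have hint := qpart_internal hI
  have hzero : ∀ i, ∑ i, (e i - 1) < i → qpart (Ideal.span (Set.range f)) i = ⊥ := by
    intro i hi
    rw [eq_bot_iff]
    rintro _ ⟨p, hp, rfl⟩
    rw [Submodule.mem_bot]
    exact Ideal.Quotient.eq_zero_iff_mem.2 (hs.2 i hi p hp)
  have hcoeff : ∀ i, (finrank K (qpart (Ideal.span (Set.range f)) i) : ℤ) = (cip e).coeff i := by
    intro i
    rw [finrank_qpart, ← Polynomial.coeff_coe, ← hHS, HS, PowerSeries.coeff_mk]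
  have hfin : Module.Finite K (MvPolynomial (Fin n) K ⧸ Ideal.span (Set.range f)) := by
    rw [Module.finite_def]
    have h1 : (⊤ : Submodule K (MvPolynomial (Fin n) K ⧸ Ideal.span (Set.range f))) =
        ⨆ i ∈ Finset.range (∑ i, (e i - 1) + 1), qpart (Ideal.span (Set.range f)) i := by
      apply le_antisymm
      · rw [← hint.submodule_iSup_eq_top]
        refine iSup_le fun i => ?_
        rcases Nat.lt_or_ge (∑ i, (e i - 1)) i with h | h
        · rw [hzero i h]; exact bot_le
        · exact le_iSup₂_of_le i (Finset.mem_range.2 (by omega)) le_rfl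
      · exact le_top
    rw [h1]
    refine Submodule.fg_biSup _ _ fun i _ => ?_
    exact (homogeneousSubmodule_fg (Fin n) K i).map _
  have hnt : Nontrivial (MvPolynomial (Fin n) K ⧸ Ideal.span (Set.range f)) := by
    obtain ⟨⟨h, -, hh⟩, -⟩ := hs
    exact ⟨⟨Ideal.Quotient.mk _ h, 0, fun h0 => hh (Ideal.Quotient.eq_zero_iff_mem.1 h0)⟩⟩
  have hsymm : ∀ i, i ≤ ∑ i, (e i - 1) → finrank K (qpart (Ideal.span (Set.range f)) i) =
      finrank K (qpart (Ideal.span (Set.range f)) (∑ i, (e i - 1) - i)) := by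
    intro i hi
    have h := cip_symm he i hi
    rw [← hcoeff, ← hcoeff] at h
    exact_mod_cast h
  refine ⟨{
    finite := hfin
    internal := hint
    mul := fun i j x y hx hy => qpart_mul i j x y hx hy
    conn := qpart_conn
    nontrivial := hnt
    zero := hzero
    symm := hsymm }, Fin n, inferInstance, f, Ideal.Quotient.mkₐ K _, fun j => ⟨e j, hD j, he j, hf j⟩,
    Ideal.Quotient.mkₐ_surjective K _, Ideal.Quotient.mkₐ_ker K _, fun i => rfl⟩

end Pool.Agent.X306.LP
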