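import Pool.Agent.X306.LP.W

/-!
# Complete intersections are closed under tensor products
-/

set_option autoImplicit false

open Module TensorProduct MvPolynomial

universe u v

namespace Pool.Agent.X306.LP

variable {K : Type u} [Field K]

section

variable {σ τ : Type}

theorem equiv_left (p : MvPolynomial σ K) :
    tensorEquivSum K σ τ K (p ⊗ₜ (1 : MvPolynomial τ K)) = rename Sum.inl p := by
  have h : ((tensorEquivSum K σ τ K).toAlgHom.comp
      (Algebra.TensorProduct.includeLeft : MvPolynomial σ K →ₐ[K] _)) = rename Sum.inl := by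
    refine MvPolynomial.algHom_ext fun i => ?_
    rw [rename_X]
    exact tensorEquivSum_X_tmul_one i
  exact DFunLike.congr_fun h p

theorem equiv_right (q : MvPolynomial τ K) :
    tensorEquivSum K σ τ K ((1 : MvPolynomial σ K) ⊗ₜ q) = rename Sum.inr q := by
  have h : ((tensorEquivSum K σ τ K).toAlgHom.comp
      (Algebra.TensorProduct.includeRight : MvPolynomial τ K →ₐ[K] _)) = rename Sum.inr := by
    refine MvPolynomial.algHom_ext fun i => ?_
    rw [rename_X]
    exact tensorEquivSum_one_tmul_X i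
  exact DFunLike.congr_fun h q

theorem monomial_split (m : σ ⊕ τ →₀ ℕ) : ∃ (m1 : σ →₀ ℕ) (m2 : τ →₀ ℕ),
    (monomial m (1 : K)) = rename Sum.inl (monomial m1 1) * rename Sum.inr (monomial m2 1) := by
  refine ⟨m.comapDomain Sum.inl Sum.inl_injective.injOn, m.comapDomain Sum.inr Sum.inr_injective.injOn,
    ?_⟩
  rw [rename_monomial, rename_monomial, monomial_mul, one_mul]
  refine congrArg (fun t => monomial t (1 : K)) (Finsupp.ext fun x => ?_)
  rw [Finsupp.add_apply]
  rcases x with x | x
  · rw [Finsupp.mapDomain_apply Sum.inl_injective, Finsupp.mapDomain_notin_range _ _ (by simp)]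
    simp
  · rw [Finsupp.mapDomain_apply Sum.inr_injective, Finsupp.mapDomain_notin_range _ _ (by simp)]
    simp

end

theorem isCIAlg_tensor {D : Set ℕ} {R S : GrAlg.{u, v} K} (hR : IsCIAlg D R) (hS : IsCIAlg D S) :
    IsCIAlg D (tensor R S) := by
  classical
  obtain ⟨σ, _, f, πR, hf, hRs, hRk, hRp⟩ := hR
  obtain ⟨τ, _, g, πS, hg, hSs, hSk, hSp⟩ := hS
  let e := tensorEquivSum K σ τ K
  let π : MvPolynomial (σ ⊕ τ) K →ₐ[K] R.A ⊗[K] S.A :=
    (Algebra.TensorProduct.map πR πS).comp e.symm.toAlgHom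
  have hl : ∀ p, π (rename Sum.inl p) = πR p ⊗ₜ 1 := by
    intro p
    show (Algebra.TensorProduct.map πR πS) (e.symm (rename Sum.inl p)) = _
    rw [← equiv_left (τ := τ) p, AlgEquiv.symm_apply_apply, Algebra.TensorProduct.map_tmul, map_one]
  have hr : ∀ q, π (rename Sum.inr q) = 1 ⊗ₜ πS q := by
    intro q
    show (Algebra.TensorProduct.map πR πS) (e.symm (rename Sum.inr q)) = _
    rw [← equiv_right (σ := σ) q, AlgEquiv.symm_apply_apply, Algebra.TensorProduct.map_tmul, map_one]
  have hlr : ∀ p q, π (rename Sum.inl p * rename Sum.inr q) = πR p ⊗ₜ πS q := by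
    intro p q
    rw [map_mul, hl, hr, Algebra.TensorProduct.tmul_mul_tmul, one_mul, mul_one]
  have hsurj : Function.Surjective π := by
    have h1 : Function.Surjective (Algebra.TensorProduct.map πR πS) :=
      TensorProduct.map_surjective hRs hSs
    exact h1.comp e.symm.surjective
  have hker : RingHom.ker π = Ideal.span (Set.range
      (Sum.elim (fun i => rename Sum.inl (f i)) (fun j => rename Sum.inr (g j)) :
        σ ⊕ τ → MvPolynomial (σ ⊕ τ) K)) := by
    have h1 := Algebra.TensorProduct.map_ker πR πS hRs hSs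
    have h2 : RingHom.ker π = (RingHom.ker (Algebra.TensorProduct.map πR πS)).map e.toAlgHom.toRingHom := by
      ext x
      rw [RingHom.mem_ker]
      constructor
      · intro hx
        have h3 : e.symm x ∈ RingHom.ker (Algebra.TensorProduct.map πR πS) := by
          rw [RingHom.mem_ker]; exact hx
        have h4 := Ideal.mem_map_of_mem e.toAlgHom.toRingHom h3
        have h5 : e.toAlgHom.toRingHom (e.symm x) = x := e.apply_symm_apply x
        rwa [h5] at h4
      · intro hx
        have h3 : (RingHom.ker (Algebra.TensorProduct.map πR πS)).map e.toAlgHom.toRingHom ≤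
            RingHom.ker π := by
          rw [Ideal.map_le_iff_le_comap]
          intro y hy
          rw [Ideal.mem_comap, RingHom.mem_ker]
          show (Algebra.TensorProduct.map πR πS) (e.symm (e y)) = 0
          rw [AlgEquiv.symm_apply_apply]
          exact hy
        exact h3 hx
    rw [h2, h1, Ideal.map_sup, hRk, hSk, Ideal.map_span, Ideal.map_span, Ideal.map_span, Ideal.map_span,
      ← Ideal.span_union]
    congr 1
    ext x
    constructor
    · rintro (⟨_, ⟨_, ⟨i, rfl⟩, rfl⟩, rfl⟩ | ⟨_, ⟨_, ⟨j, rfl⟩, rfl⟩, rfl⟩)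
      · exact ⟨Sum.inl i, (equiv_left (τ := τ) (f i)).symm⟩
      · exact ⟨Sum.inr j, (equiv_right (σ := σ) (g j)).symm⟩
    · rintro ⟨i | j, rfl⟩
      · exact Or.inl ⟨_, ⟨_, ⟨i, rfl⟩, rfl⟩, equiv_left (τ := τ) (f i)⟩
      · exact Or.inr ⟨_, ⟨_, ⟨j, rfl⟩, rfl⟩, equiv_right (σ := σ) (g j)⟩
  refine ⟨σ ⊕ τ, inferInstance, _, π, ?_, hsurj, hker, ?_⟩
  · rintro (i | j)
    · obtain ⟨d, hD, hd, hd'⟩ := hf i
      exact ⟨d, hD, hd, hd'.rename_isHomogeneous⟩
    · obtain ⟨d, hD, hd, hd'⟩ := hg j
      exact ⟨d, hD, hd, hd'.rename_isHomogeneous⟩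
  · intro k
    show tpart R S k = _
    apply le_antisymm
    · refine Submodule.span_le.2 ?_
      rintro _ ⟨i, j, x, y, hij, hx, hy, rfl⟩
      rw [hRp i] at hx
      rw [hSp j] at hy
      obtain ⟨p, hp, rfl⟩ := hx
      obtain ⟨q, hq, rfl⟩ := hy
      have hp' : p.IsHomogeneous i := hp
      have hq' : q.IsHomogeneous j := hq
      refine ⟨rename Sum.inl p * rename Sum.inr q, ?_, hlr p q⟩
      have h := hp'.rename_isHomogeneous (f := (Sum.inl : σ → σ ⊕ τ)) |>.mul
        (hq'.rename_isHomogeneous (f := (Sum.inr : τ → σ ⊕ τ)))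
      rw [hij] at h
      exact h
    · rintro _ ⟨p, hp, rfl⟩
      have hp' : p.IsHomogeneous k := hp
      rw [p.as_sum, map_sum]
      refine Submodule.sum_mem _ fun m hm => ?_
      obtain ⟨m1, m2, h12⟩ := monomial_split (K := K) m
      have h1 : monomial m (coeff m p) = coeff m p • monomial m (1 : K) := by
        rw [smul_monomial, smul_eq_mul, mul_one]
      have hmk : (monomial m (1 : K)).IsHomogeneous k := by
        have h2 : m.degree = k := by
          by_contra hne
          exact (mem_support_iff.1 hm) (hp'.coeff_eq_zero hne)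
        exact isHomogeneous_monomial _ h2
      have hm1 : (monomial m1 (1 : K)).IsHomogeneous m1.degree := isHomogeneous_monomial _ rfl
      have hm2 : (monomial m2 (1 : K)).IsHomogeneous m2.degree := isHomogeneous_monomial _ rfl
      have h3 := (hm1.rename_isHomogeneous (f := (Sum.inl : σ → σ ⊕ τ))).mul
        (hm2.rename_isHomogeneous (f := (Sum.inr : τ → σ ⊕ τ)))
      rw [← h12] at h3
      have h4 : m1.degree + m2.degree = k := h3.inj_right hmk (by
        rw [Ne, monomial_eq_zero]; exact one_ne_zero)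
      rw [h1, map_smul, h12]
      have h5 : π.toLinearMap (rename Sum.inl (monomial m1 1) * rename Sum.inr (monomial m2 1)) =
          πR (monomial m1 1) ⊗ₜ πS (monomial m2 1) := hlr _ _
      have h6 : πR (monomial m1 1) ⊗ₜ πS (monomial m2 1) ∈ tpart R S k := by
        refine tpart_mem h4 ?_ ?_
        · rw [hRp]; exact ⟨_, hm1, rfl⟩
        · rw [hSp]; exact ⟨_, hm2, rfl⟩
      rw [← h5] at h6
      exact Submodule.smul_mem _ _ h6

theorem isPow_tpow [CharZero K] {A B : GrAlg.{u, v} K} (hA : IsSymm A) (hB : IsSymm B) (n : ℕ) :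
    IsSymm (tpow B A n) ∧ IsPow B A n (tpow B A n) := by
  induction n with
  | zero => exact ⟨hB, IsPow.zero⟩
  | succ n ih =>
    have h := isSymm_tensor ih.1 hA
    exact ⟨h, IsPow.succ n _ _ ih.2 h (isTensor_tensor _ _)⟩

theorem closed_CI [CharZero K] (D : Set ℕ) : ClosedUnderTensor (CI.{u, v} K D) :=
  fun R hR S hS => ⟨tensor R S, ⟨isSymm_tensor hR.1 hS.1, isCIAlg_tensor hR.2 hS.2⟩, isTensor_tensor R S⟩

end Pool.Agent.X306.LP
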