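import Pool.Agent.X311.Mw1

/-!
# Concentration of sums of independent, not identically distributed integers

Let `δ k : I → ℤ`, `k < n`, be nonconstant functions and `b = |I|`. For each integer `r` the number `N` of
the `g : Fin n → I` with `∑ k, δ k (g k) = r` satisfies `2 (n + 1) N ^ 2 ≤ b ^ (2 n + 1)`. The case of equal
functions `δ k` is `Pool.Agent.X311.Mw.conc`; the general case uses the theorem of Sperner
(Littlewood-Offord, Erdos).
-/

set_option autoImplicit false

open Finset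

namespace Pool.Agent.X306.LP

/-- the number of subsets of `range m` with sum `t` -/
def V (d : ℕ → ℤ) (m : ℕ) (t : ℤ) : ℕ :=
  (((range m).powerset).filter (fun S => ∑ k ∈ S, d k = t)).card

theorem V_succ (d : ℕ → ℤ) (m : ℕ) (t : ℤ) : V d (m + 1) t = V d m t + V d m (t - d m) := by
  classical
  unfold V
  have h0 : ∀ S ∈ (range m).powerset, m ∉ S := fun S hS hm =>
    (mem_range.1 (mem_powerset.1 hS hm)).ne rfl
  rw [range_add_one, powerset_insert, filter_union, card_union_of_disjoint]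
  · congr 1
    rw [filter_image, card_image_of_injOn]
    · congr 1
      ext S
      rw [mem_filter, mem_filter]
      refine and_congr_right fun hS => ?_
      rw [sum_insert (h0 S hS)]
      constructor <;> intro h <;> omega
    · intro S hS S' hS' h
      rw [mem_coe, mem_filter] at hS hS'
      have h1 := h0 S hS.1
      have h2 := h0 S' hS'.1
      have h3 := congrArg (fun T => T.erase m) h
      simpa [erase_insert h1, erase_insert h2] using h3
  · rw [disjoint_left]
    intro S hS hS'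
    rw [mem_filter] at hS hS'
    obtain ⟨T, _, hT⟩ := mem_image.1 hS'.1
    exact h0 S hS.1 (hT ▸ mem_insert_self m T)

theorem V_congr {d d' : ℕ → ℤ} {m : ℕ} (h : ∀ k < m, d k = d' k) (t : ℤ) : V d m t = V d' m t := by
  unfold V
  congr 1
  refine filter_congr fun S hS => ?_
  rw [sum_congr rfl fun k hk => h k (mem_range.1 (mem_powerset.1 hS hk))]

/-- Littlewood-Offord, Erdos. -/
theorem V_le {d : ℕ → ℤ} {m : ℕ} (hd : ∀ k < m, d k ≠ 0) (t : ℤ) : V d m t ≤ m.choose (m / 2) := by
  classical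
  let Φ : Finset ℕ → Finset (Fin m) := fun S => univ.filter fun k : Fin m => (k : ℕ) ∈ S ↔ 0 < d k
  set 𝒮 := ((range m).powerset).filter (fun S => ∑ k ∈ S, d k = t) with h𝒮
  have hsum : ∀ S ∈ (range m).powerset, ∑ k ∈ S, d k = ∑ k ∈ range m, if k ∈ S then d k else 0 := by
    intro S hS
    rw [← sum_filter]
    congr 1
    ext k
    rw [mem_filter]
    exact ⟨fun hk => ⟨mem_powerset.1 hS hk, hk⟩, fun hk => hk.2⟩
  have key : ∀ S ∈ 𝒮, ∀ S' ∈ 𝒮, Φ S ⊆ Φ S' → S = S' := by
    intro S hS S' hS' hsub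
    rw [h𝒮, mem_filter] at hS hS'
    have h1 : ∑ k ∈ range m, ((if k ∈ S' then d k else 0) - (if k ∈ S then d k else 0)) = 0 := by
      rw [sum_sub_distrib, ← hsum S hS.1, ← hsum S' hS'.1, hS.2, hS'.2, sub_self]
    have h2 : ∀ k ∈ range m, (0 : ℤ) ≤ (if k ∈ S' then d k else 0) - (if k ∈ S then d k else 0) := by
      intro k hk
      have hk' := mem_range.1 hk
      have h3 : ((k ∈ S) ↔ 0 < d k) → ((k ∈ S') ↔ 0 < d k) := fun h => by
        have h4 : (⟨k, hk'⟩ : Fin m) ∈ Φ S := mem_filter.2 ⟨mem_univ _, h⟩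
        exact (mem_filter.1 (hsub h4)).2
      have h5 := hd k hk'
      by_cases ha : k ∈ S <;> by_cases hb : k ∈ S' <;> simp only [ha, hb, if_true, if_false] <;>
        by_cases hc : 0 < d k <;> simp only [ha, hb, hc, true_iff, false_iff, iff_true, iff_false,
          not_true, not_false_iff, imp_false, forall_true_left, true_implies, false_implies] at h3 <;> omega
    have h6 := (sum_eq_zero_iff_of_nonneg h2).1 h1
    ext k
    by_cases hk : k ∈ range m
    · have h7 := h6 k hk
      have h5 := hd k (mem_range.1 hk)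
      by_cases ha : k ∈ S <;> by_cases hb : k ∈ S' <;> simp only [ha, hb, if_true, if_false] at h7 ⊢ <;>
        omega
    · exact ⟨fun h => absurd (mem_powerset.1 hS.1 h) hk, fun h => absurd (mem_powerset.1 hS'.1 h) hk⟩
  have hinj : Set.InjOn Φ (𝒮 : Set (Finset ℕ)) := fun S hS S' hS' h =>
    key S (mem_coe.1 hS) S' (mem_coe.1 hS') (by rw [h])
  have hanti : IsAntichain (· ⊆ ·) ((𝒮.image Φ : Finset (Finset (Fin m))) : Set (Finset (Fin m))) := by
    intro T hT T' hT' hne hsub
    obtain ⟨S, hS, rfl⟩ := mem_image.1 (mem_coe.1 hT)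
    obtain ⟨S', hS', rfl⟩ := mem_image.1 (mem_coe.1 hT')
    exact hne (by rw [key S hS S' hS' hsub])
  have h := hanti.sperner
  rw [card_image_of_injOn hinj, Fintype.card_fin] at h
  exact h

/-- The bound, recursively. -/
noncomputable def B (β : ℝ) : ℕ → ℕ → ℝ
  | 0, m => (m.choose (m / 2) : ℝ)
  | n + 1, m => B β n (m + 1) + β * B β n m

theorem B_eq (β : ℝ) (n m : ℕ) : B β n m =
    ∑ j ∈ range (n + 1), (n.choose j : ℝ) * β ^ (n - j) * ((m + j).choose ((m + j) / 2) : ℝ) := by
  induction n generalizing m with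
  | zero => simp [B]
  | succ n ih =>
    rw [B, ih, ih, sum_range_succ' _ (n + 1)]
    have h1 : ∀ j ∈ range (n + 1), ((n + 1).choose (j + 1) : ℝ) * β ^ (n + 1 - (j + 1)) *
        ((m + (j + 1)).choose ((m + (j + 1)) / 2) : ℝ) =
        (n.choose j : ℝ) * β ^ (n - j) * ((m + 1 + j).choose ((m + 1 + j) / 2) : ℝ) +
        (n.choose (j + 1) : ℝ) * β ^ (n - j) * ((m + (j + 1)).choose ((m + (j + 1)) / 2) : ℝ) := by
      intro j _
      rw [Nat.choose_succ_succ, Nat.add_sub_add_right, show m + 1 + j = m + (j + 1) by ring]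
      push_cast
      ring
    rw [sum_congr rfl h1, sum_add_distrib, add_assoc]
    congr 1
    rw [sum_range_succ' _ n, sum_range_succ _ n, Nat.choose_succ_self, mul_add, mul_sum]
    have h2 : ∀ j ∈ range n, β * ((n.choose (j + 1) : ℝ) * β ^ (n - (j + 1)) *
        ((m + (j + 1)).choose ((m + (j + 1)) / 2) : ℝ)) =
        (n.choose (j + 1) : ℝ) * β ^ (n - j) * ((m + (j + 1)).choose ((m + (j + 1)) / 2) : ℝ) := by
      intro j hj
      have h3 : n - j = n - (j + 1) + 1 := by have := mem_range.1 hj; omega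
      rw [h3, pow_succ]
      ring
    rw [sum_congr rfl h2]
    simp only [Nat.cast_zero, zero_mul, add_zero, Nat.choose_zero_right, Nat.cast_one, one_mul,
      Nat.sub_zero, pow_succ]
    ring

variable {I : Type} [Fintype I]

theorem mixed (n : ℕ) : ∀ (m : ℕ) (d : ℕ → ℤ), (∀ k < m, d k ≠ 0) → ∀ (δ : Fin n → I → ℤ),
    (∀ k, ∃ i j, δ k i ≠ δ k j) → ∀ r : ℤ,
    ∑ g : Fin n → I, (V d m (r - ∑ k, δ k (g k)) : ℝ) ≤ B ((Fintype.card I : ℝ) - 2) n m := by
  classical
  induction n with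
  | zero =>
    intro m d hd δ _ r
    rw [Fintype.sum_unique, B]
    exact_mod_cast V_le hd _
  | succ n ih =>
    intro m d hd δ hδ r
    obtain ⟨i, j, hne⟩ := hδ 0
    have hij : i ≠ j := fun e => hne (by rw [e])
    set G : I → ℝ := fun i => ∑ g : Fin n → I, (V d m (r - δ 0 i - ∑ k, δ (Fin.succ k) (g k)) : ℝ) with hG
    have h0 : ∑ g : Fin (n + 1) → I, (V d m (r - ∑ k, δ k (g k)) : ℝ) = ∑ i, G i := by
      rw [hG, ← Fintype.sum_prod_type' (f := fun (i : I) (g : Fin n → I) =>
        (V d m (r - δ 0 i - ∑ k, δ (Fin.succ k) (g k)) : ℝ))]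
      refine (Fintype.sum_equiv (Fin.consEquiv (fun _ => I)) _ _ fun p => ?_).symm
      have h2 : ∑ k, δ k ((Fin.consEquiv (fun _ : Fin (n + 1) => I)) p k) =
          δ 0 p.1 + ∑ k, δ (Fin.succ k) (p.2 k) := by
        rw [Fin.sum_univ_succ]
        rfl
      rw [h2, sub_sub]
    have hjm : j ∈ Finset.univ.erase i := Finset.mem_erase.2 ⟨hij.symm, Finset.mem_univ _⟩
    set J := (Finset.univ.erase i).erase j with hJ
    have hcard : J.card + 2 = Fintype.card I := by
      have h1 : J.card + 1 = (Finset.univ.erase i).card := Finset.card_erase_add_one hjm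
      have h2 : (Finset.univ.erase i).card + 1 = Fintype.card I := by
        rw [Finset.card_erase_add_one (Finset.mem_univ i), Finset.card_univ]
      omega
    have hb : (Fintype.card I : ℝ) - 2 = J.card := by
      rw [← hcard]
      push_cast
      ring
    rw [h0, ← Finset.add_sum_erase _ _ (Finset.mem_univ i), ← Finset.add_sum_erase _ _ hjm, ← add_assoc,
      B]
    refine add_le_add ?_ ?_
    · have h3 : ∀ k < m, Function.update d m (δ 0 i - δ 0 j) k = d k := fun k hk =>
        Function.update_of_ne hk.ne _ _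
      have h4 : G i + G j = ∑ g : Fin n → I, (V (Function.update d m (δ 0 i - δ 0 j)) (m + 1)
          (r - δ 0 j - ∑ k, δ (Fin.succ k) (g k)) : ℝ) := by
        rw [hG, ← Finset.sum_add_distrib]
        refine Finset.sum_congr rfl fun g _ => ?_
        rw [V_succ, Function.update_self, V_congr h3, V_congr h3, Nat.cast_add, add_comm]
        congr 3
        ring
      rw [h4]
      refine ih (m + 1) _ (fun k hk => ?_) (fun k => δ (Fin.succ k)) (fun k => hδ _) _
      rcases Nat.lt_succ_iff_lt_or_eq.1 hk with h5 | h5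
      · rw [h3 k h5]; exact hd k h5
      · rw [h5, Function.update_self]
        exact sub_ne_zero.2 hne
    · have h3 : ∀ i ∈ J, G i ≤ B ((Fintype.card I : ℝ) - 2) n m := fun i _ =>
        ih m d hd (fun k => δ (Fin.succ k)) (fun k => hδ _) (r - δ 0 i)
      refine (Finset.sum_le_sum h3).trans (le_of_eq ?_)
      rw [Finset.sum_const, nsmul_eq_mul, hb]

/-- **Concentration.** -/
theorem conc (n : ℕ) (δ : Fin n → I → ℤ) (hδ : ∀ k, ∃ i j, δ k i ≠ δ k j) (h2 : 2 ≤ Fintype.card I)
    (r : ℤ) :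
    (Nat.card {g : Fin n → I // ∑ k, δ k (g k) = r} : ℝ) ^ 2 * (2 * (n + 1)) ≤
      (Fintype.card I : ℝ) ^ (2 * n + 1) := by
  classical
  obtain ⟨J, hJ⟩ : ∃ J : ℕ, Fintype.card I = J + 2 := ⟨Fintype.card I - 2, by omega⟩
  have hb : (Fintype.card I : ℝ) = 2 + J := by
    rw [hJ]
    push_cast
    ring
  set b : ℝ := (Fintype.card I : ℝ) with hbdef
  set N : ℝ := (Nat.card {g : Fin n → I // ∑ k, δ k (g k) = r} : ℝ) with hN
  have hN0 : 0 ≤ N := Nat.cast_nonneg _
  -- the weights
  set W : ℕ → ℝ := fun m => (n.choose m : ℝ) * 2 ^ m * (J : ℝ) ^ (n - m) with hW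
  set c : ℕ → ℝ := fun m => (m.choose (m / 2) : ℝ) / 2 ^ m with hc
  have hW0 : ∀ m, 0 ≤ W m := fun m => by positivity
  have hbound : N ≤ ∑ m ∈ range (n + 1), W m * c m := by
    have h1 := mixed n 0 (fun _ => 0) (fun k hk => absurd hk (Nat.not_lt_zero k)) δ hδ r
    have h3 : N = ∑ g : Fin n → I, (V (fun _ => 0) 0 (r - ∑ k, δ k (g k)) : ℝ) := by
      rw [hN, Nat.card_eq_fintype_card, Fintype.card_subtype, ← Finset.sum_boole]
      refine Finset.sum_congr rfl fun g _ => ?_
      by_cases h4 : ∑ k, δ k (g k) = r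
      · rw [if_pos h4, h4, sub_self]
        simp [V]
      · rw [if_neg h4]
        have h5 : ¬ (0 = r - ∑ k, δ k (g k)) := fun h => h4 (by omega)
        simp [V, h5]
    rw [h3]
    refine h1.trans (le_of_eq ?_)
    rw [B_eq]
    refine Finset.sum_congr rfl fun m _ => ?_
    have h5 : (2 : ℝ) ^ m ≠ 0 := by positivity
    have h6 : (Fintype.card I : ℝ) - 2 = J := by rw [← hbdef, hb]; ring
    rw [h6, Nat.zero_add]
    simp only [hW, hc]
    field_simp
  have hsumW : ∑ m ∈ range (n + 1), W m = b ^ n := by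
    rw [hb, add_pow]
    refine Finset.sum_congr rfl fun m _ => ?_
    simp only [hW]
    ring
  have hc2 : ∀ m : ℕ, c m ^ 2 ≤ 1 / (m + 1) := by
    intro m
    have h1 := Pool.Agent.X311.Mw.choose_sq_le m
    have h2 : (0 : ℝ) < (m : ℝ) + 1 := by positivity
    simp only [hc]
    rw [div_pow, ← pow_mul, mul_comm m 2, pow_mul, show (2 : ℝ) ^ 2 = 4 by norm_num,
      div_le_div_iff₀ (by positivity) h2, one_mul]
    exact h1
  have hsumWc : ∑ m ∈ range (n + 1), W m * c m ^ 2 ≤ b ^ (n + 1) / (2 * (n + 1)) := by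
    have h1 : ∀ m ∈ range (n + 1), W m * c m ^ 2 ≤
        ((n + 1).choose (m + 1) * 2 ^ (m + 1) * (J : ℝ) ^ (n - m)) / (2 * (n + 1)) := by
      intro m _
      have h2 := mul_le_mul_of_nonneg_left (hc2 m) (hW0 m)
      refine h2.trans (le_of_eq ?_)
      have h3 : ((n : ℝ) + 1) * (n.choose m : ℝ) = ((n + 1).choose (m + 1) : ℝ) * (m + 1) := by
        have h4 := Nat.add_one_mul_choose_eq n m
        exact_mod_cast h4
      have h5 : ((m : ℝ) + 1) ≠ 0 := by positivity
      have h6 : ((n : ℝ) + 1) ≠ 0 := by positivity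
      simp only [hW]
      rw [mul_one_div, div_eq_div_iff h5 (by positivity)]
      calc (n.choose m : ℝ) * 2 ^ m * (J : ℝ) ^ (n - m) * (2 * ((n : ℝ) + 1))
          = (((n : ℝ) + 1) * (n.choose m : ℝ)) * 2 ^ (m + 1) * (J : ℝ) ^ (n - m) := by
            rw [pow_succ]; ring
        _ = _ := by rw [h3]; ring
    refine (Finset.sum_le_sum h1).trans ?_
    rw [← Finset.sum_div]
    refine div_le_div_of_nonneg_right ?_ (by positivity)
    rw [hb, add_pow, Finset.sum_range_succ' _ (n + 1)]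
    have h2 : ∀ m ∈ range (n + 1), ((n + 1).choose (m + 1) * 2 ^ (m + 1) * (J : ℝ) ^ (n - m)) =
        2 ^ (m + 1) * (J : ℝ) ^ (n + 1 - (m + 1)) * ((n + 1).choose (m + 1) : ℝ) := by
      intro m _
      rw [Nat.add_sub_add_right]
      ring
    rw [Finset.sum_congr rfl h2]
    have h3 : (0 : ℝ) ≤ 2 ^ 0 * (J : ℝ) ^ (n + 1 - 0) * ((n + 1).choose 0 : ℝ) := by positivity
    linarith
  -- Cauchy-Schwarz
  have hCS : (∑ m ∈ range (n + 1), W m * c m) ^ 2 ≤
      (∑ m ∈ range (n + 1), W m) * ∑ m ∈ range (n + 1), W m * c m ^ 2 := by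
    have h1 := Finset.sum_mul_sq_le_sq_mul_sq (range (n + 1)) (fun m => √(W m))
      (fun m => √(W m) * c m)
    have h2 : ∀ m, √(W m) * (√(W m) * c m) = W m * c m := fun m => by
      rw [← mul_assoc, Real.mul_self_sqrt (hW0 m)]
    have h3 : ∀ m, √(W m) ^ 2 = W m := fun m => Real.sq_sqrt (hW0 m)
    have h4 : ∀ m, (√(W m) * c m) ^ 2 = W m * c m ^ 2 := fun m => by rw [mul_pow, h3]
    simp only [h2, h3, h4] at h1
    exact h1
  have h5 : N ^ 2 ≤ b ^ n * (b ^ (n + 1) / (2 * (n + 1))) := by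
    refine (pow_le_pow_left₀ hN0 hbound 2).trans (hCS.trans ?_)
    rw [hsumW]
    exact mul_le_mul_of_nonneg_left hsumWc (by positivity)
  have h6 : (0 : ℝ) < 2 * ((n : ℝ) + 1) := by positivity
  have h7 := mul_le_mul_of_nonneg_right h5 h6.le
  refine h7.trans (le_of_eq ?_)
  rw [mul_assoc, div_mul_cancel₀ _ h6.ne', ← pow_add]
  congr 1
  ring

end Pool.Agent.X306.LP
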