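import Pool.Agent.X306.LP.T
import Pool.Agent.X306.LP.C

/-!
# The law
-/

set_option autoImplicit false

open Module TensorProduct Filter Topology

universe u v

namespace Pool.Agent.X306.LP

variable {K : Type u} [Field K] [CharZero K]

/-- `right(R, l) ≤ dim R` with equality exactly for the Lefschetz elements. -/
theorem right_le_dim {R : GrAlg.{u, v} K} (hR : IsSymm R) {l : R.A} (hl : l ∈ R.part 1) :
    right R l ≤ dim R ∧ (right R l = dim R ↔ IsLefschetz R l) := by
  classical
  obtain ⟨I, _, a, d, H, -, hL⟩ := exists_adp hR hl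
  have h1 := H.right_eq hR
  have h2 := H.dim_eq
  rw [h1, h2, Nat.card_eq_fintype_card]
  have h3 : Fintype.card {i // (R.soc : ℤ) - 2 * d i - a i = 0} ≤ Fintype.card I :=
    Fintype.card_subtype_le _
  refine ⟨by exact_mod_cast h3, ?_, fun h => ?_⟩
  · intro h
    have h4 : Fintype.card {i // (R.soc : ℤ) - 2 * d i - a i = 0} = Fintype.card I := by
      exact_mod_cast h
    refine H.lefschetz hR hl fun i => ?_
    have h5 : (Finset.univ.filter fun i : I => (R.soc : ℤ) - 2 * d i - a i = 0) = Finset.univ := by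
      rw [← Finset.card_eq_iff_eq_univ, ← Fintype.card_subtype]
      exact h4
    have h6 : i ∈ Finset.univ.filter fun i : I => (R.soc : ℤ) - 2 * d i - a i = 0 := by
      rw [h5]; exact Finset.mem_univ i
    have h7 := (Finset.mem_filter.1 h6).2
    omega
  · have h4 := hL h
    rw [Fintype.card_subtype, Finset.filter_true_of_mem fun i _ => by rw [h4 i]; ring]
    rfl

theorem two_le {A : GrAlg.{u, v} K} (hA : IsSymm A) (hno : ¬ HasSLP A) : 2 ≤ dim A := by
  classical
  by_contra hlt
  obtain ⟨I, _, a, d, H, hsum, -⟩ := exists_adp hA (zero_mem (A.part 1))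
  have h2 := H.dim_eq
  have h3 : Subsingleton I := Fintype.card_le_one_iff_subsingleton.1 (by omega)
  refine hno ⟨0, H.lefschetz hA (zero_mem _) fun i => ?_⟩
  have h1 : ∑ j, ((A.soc : ℤ) - 2 * d j - a j) = 0 := by
    rw [Finset.sum_sub_distrib, H.sum_deg hA, hsum, sub_zero]
  have h4 : ∑ j, ((A.soc : ℤ) - 2 * d j - a j) = (A.soc : ℤ) - 2 * d i - a i := by
    rw [Finset.sum_eq_single i (fun j _ hj => absurd (Subsingleton.elim j i) hj)
      (fun h => absurd (Finset.mem_univ i) h)]
  omega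

/-- The bound for the tensor powers. -/
theorem right_pow_le {A B : GrAlg.{u, v} K} (hA : IsSymm A) (hB : IsSymm B) (hno : ¬ HasSLP A)
    {n : ℕ} {P : GrAlg.{u, v} K} (hP : IsPow B A n P) {L : P.A} (hL : L ∈ P.part 1) :
    (right P L : ℝ) ≤ √((dim A : ℝ) / (2 * (n + 1))) * dim P := by
  classical
  have hb := two_le hA hno
  obtain ⟨hP', -, h⟩ := exists_pow hA hB hno hP
  obtain ⟨J, _, η, δ, a, d, H, hδ, hp⟩ := h L hL
  have h1 : (right P L : ℝ) = ∑ j : J, (Nat.card {g : Fin n → Fin (dim A) // ∑ k, δ k (g k) = -η j} : ℝ) := by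
    rw [H.right_eq hP']
    have h0 : ∀ p : J × (Fin n → Fin (dim A)), ((P.soc : ℤ) - 2 * d p - a p = 0) ↔ ∑ k, δ k (p.2 k) = -η p.1 := by
      intro p
      rw [hp p]
      constructor <;> intro h <;> omega
    rw [Nat.card_congr (Equiv.subtypeEquivRight h0)]
    rw [Nat.card_eq_fintype_card, Fintype.card_subtype]
    have h2 : ∀ j : J, (Nat.card {g : Fin n → Fin (dim A) // ∑ k, δ k (g k) = -η j} : ℝ) =
        ∑ g : Fin n → Fin (dim A), if ∑ k, δ k (g k) = -η j then (1 : ℝ) else 0 := fun j => by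
      rw [Nat.card_eq_fintype_card, Fintype.card_subtype, Finset.sum_boole]
    rw [Finset.sum_congr rfl fun j _ => h2 j, ← Fintype.sum_prod_type'
      (f := fun (j : J) (g : Fin n → Fin (dim A)) => if ∑ k, δ k (g k) = -η j then (1 : ℝ) else 0), Finset.sum_boole]
    push_cast
    rfl
  have h2 : ∀ j : J, (Nat.card {g : Fin n → Fin (dim A) // ∑ k, δ k (g k) = -η j} : ℝ) ≤
      √((dim A : ℝ) / (2 * (n + 1))) * (dim A : ℝ) ^ n := by
    intro j
    have h3 := conc n δ hδ (by rw [Fintype.card_fin]; exact hb) (-η j)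
    rw [Fintype.card_fin] at h3
    have h4 : (0 : ℝ) < 2 * ((n : ℝ) + 1) := by positivity
    have h5 : (√((dim A : ℝ) / (2 * (n + 1))) * (dim A : ℝ) ^ n) ^ 2 * (2 * (n + 1)) =
        (dim A : ℝ) ^ (2 * n + 1) := by
      rw [mul_pow, Real.sq_sqrt (by positivity), ← pow_mul]
      field_simp
      ring
    rw [← h5] at h3
    have h6 := le_of_mul_le_mul_right h3 h4
    exact (sq_le_sq₀ (Nat.cast_nonneg _) (by positivity)).1 h6
  have h3 : (dim P : ℝ) = (Fintype.card J : ℝ) * (dim A : ℝ) ^ n := by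
    rw [H.dim_eq, Fintype.card_prod, Fintype.card_fun, Fintype.card_fin, Fintype.card_fin]
    push_cast
    rfl
  rw [h1, h3]
  refine (Finset.sum_le_sum fun j _ => h2 j).trans (le_of_eq ?_)
  rw [Finset.sum_const, Finset.card_univ, nsmul_eq_mul]
  ring

/-- The dimension is one if the socle degree is zero. -/
theorem soc_pos {A : GrAlg.{u, v} K} (hA : IsSymm A) (hno : ¬ HasSLP A) : 0 < A.soc := by
  by_contra h
  have h2 := two_le hA hno
  have h3 : (⊤ : Submodule K A.A) ≤ Submodule.span K {1} := by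
    rw [← hA.internal.submodule_iSup_eq_top]
    refine iSup_le fun i => ?_
    rcases Nat.eq_zero_or_pos i with h4 | h4
    · rw [h4, hA.conn]
    · rw [hA.zero i (by omega)]
      exact bot_le
  have h4 : dim A ≤ 1 := by
    have := hA.finite
    rw [dim, ← finrank_top]
    refine (Submodule.finrank_mono h3).trans ?_
    refine (finrank_span_le_card ({1} : Set A.A)).trans ?_
    simp
  omega

theorem exists_pow_mem {C : Set (GrAlg.{u, v} K)} (hC : ∀ R ∈ C, IsSymm R) (ht : ClosedUnderTensor C)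
    {A : GrAlg.{u, v} K} (hA : A ∈ C) (n : ℕ) : ∃ P ∈ C, IsPow A A n P := by
  induction n with
  | zero => exact ⟨A, hA, IsPow.zero⟩
  | succ n ih =>
    obtain ⟨P, hP, hPn⟩ := ih
    obtain ⟨Q, hQ, hT⟩ := ht P hP A hA
    exact ⟨Q, hQ, IsPow.succ n P Q hPn (hC Q hQ) hT⟩

/-- The criterion for classes. -/
theorem class_iff {C : Set (GrAlg.{u, v} K)} (hC : ∀ R ∈ C, IsSymm R) (ht : ClosedUnderTensor C) :
    (∀ R ∈ C, HasSLP R) ↔ ∃ f : ℕ → ℝ, Tendsto (fun d : ℕ => f d * √(d : ℝ)) atTop atTop ∧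
      RightPart C f := by
  constructor
  · intro h
    refine ⟨fun _ => 1, ?_, fun R hR => ?_⟩
    · simp only [one_mul]
      exact Real.tendsto_sqrt_atTop.comp tendsto_natCast_atTop_atTop
    · obtain ⟨l, hl⟩ := h R hR
      refine ⟨l, hl.1, ?_⟩
      rw [((right_le_dim (hC R hR) hl.1).2.2 hl), one_mul]
      push_cast
      rfl
  · rintro ⟨f, hf, hr⟩ A hA
    by_contra hno
    have hAs := hC A hA
    have hs := soc_pos hAs hno
    have h1 : Tendsto (fun n : ℕ => (n + 1) * A.soc) atTop atTop :=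
      tendsto_atTop_mono (fun n => (Nat.le_succ n).trans (Nat.le_mul_of_pos_right _ hs)) tendsto_id
    obtain ⟨n, hn⟩ := ((hf.comp h1).eventually_gt_atTop (√((dim A : ℝ) * A.soc / 2))).exists
    obtain ⟨P, hP, hPn⟩ := exists_pow_mem hC ht hA n
    obtain ⟨hPs, hsoc, -⟩ := exists_pow hAs hAs hno hPn
    obtain ⟨l, hl, hle⟩ := hr P hP
    have h2 := hle.trans (right_pow_le hAs hAs hno hPn hl)
    have h3 : (0 : ℝ) < dim P := by
      have := hPs.nontrivial
      have := hPs.finite
      exact_mod_cast (Module.finrank_pos : 0 < finrank K P.A)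
    have h4 := le_of_mul_le_mul_right h2 h3
    have h5 : P.soc = (n + 1) * A.soc := by rw [hsoc]; ring
    rw [h5] at h4
    have h6 : f ((n + 1) * A.soc) * √(((n + 1) * A.soc : ℕ) : ℝ) ≤ √((dim A : ℝ) * A.soc / 2) := by
      refine (mul_le_mul_of_nonneg_right h4 (Real.sqrt_nonneg _)).trans (le_of_eq ?_)
      rw [← Real.sqrt_mul (by positivity)]
      congr 1
      push_cast
      field_simp
    exact absurd hn (not_lt.2 h6)

end Pool.Agent.X306.LP
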