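import Pool.Agent.X306.LP.QDefs
import Pool.Agent.X306.LP.M
import Pool.Agent.X306.LP.CI
import Pool.Agent.Y163.MW.Gen

/-!
# The sum of the ranks of the powers of a linear form
-/

set_option autoImplicit false

open Module TensorProduct Filter Topology

universe u v

namespace Pool.Agent.X306.LP

open Pool.Agent.Y143 Pool.Agent.Y163.MW

variable {K : Type u} [Field K] [CharZero K]

/-- The distribution of the weights does not depend on the adapted basis. -/
theorem sum_indep {R : GrAlg.{u, v} K} {l : R.A} {I J : Type} [Fintype I] [Fintype J] {a : I → ℤ}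
    {d : I → ℕ} {a' : J → ℤ} {d' : J → ℕ} (H : Adp R l a d) (H' : Adp R l a' d') (φ : ℤ → ℤ) :
    ∑ i, φ (a i) = ∑ j, φ (a' j) := by
  classical
  have hM := nilp H
  obtain ⟨b, e, h, hs, -⟩ := H
  obtain ⟨b', e', h', hs', -⟩ := H'
  have h1 := Pool.Agent.Y68.MW.stD Pool.Agent.Y141.MW.stL K R.A (mulBy R l) I b a e h hs _ hM
  have h2 := Pool.Agent.Y68.MW.stD Pool.Agent.Y141.MW.stL K R.A (mulBy R l) J b' a' e' h' hs' _ hM
  have h3 : ∀ r : ℤ, Nat.card {i // a i ≤ r} = Nat.card {j // a' j ≤ r} := by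
    intro r
    have e1 : Nat.card {i // a i ≤ r} = finrank K (monFil (mulBy R l) r) := by
      rw [h1 r, finrank_span_image]; rfl
    have e2 : Nat.card {j // a' j ≤ r} = finrank K (monFil (mulBy R l) r) := by
      rw [h2 r, finrank_span_image]; rfl
    rw [e1, e2]
  have h4 : ∀ {L : Type} [Fintype L] (c : L → ℤ) (r : ℤ),
      Nat.card {i // c i ≤ r} = Nat.card {i // c i ≤ r - 1} + Nat.card {i // c i = r} := by
    intro L _ c r
    rw [Nat.card_eq_fintype_card, Nat.card_eq_fintype_card, Nat.card_eq_fintype_card,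
      Fintype.card_subtype, Fintype.card_subtype, Fintype.card_subtype,
      ← Finset.card_union_of_disjoint]
    · congr 1
      ext i
      simp only [Finset.mem_filter, Finset.mem_univ, true_and, Finset.mem_union]
      omega
    · rw [Finset.disjoint_filter]
      intro i _ h5 h6
      omega
  rw [← finsum_card a φ, ← finsum_card a' φ]
  refine finsum_congr fun r => ?_
  have h5 : Nat.card {i // a i = r} = Nat.card {j // a' j = r} := by
    have e1 := h4 a r
    have e2 := h4 a' r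
    rw [h3 r, h3 (r - 1)] at e1
    omega
  rw [h5]

theorem moment_eq {R : GrAlg.{u, v} K} (hR : IsSymm R) {l : R.A} {I : Type} [Fintype I] {a : I → ℤ}
    {d : I → ℕ} (H : Adp R l a d) : moment R = ∑ i, ((R.soc : ℤ) - 2 * d i) ^ 2 := by
  classical
  have hds := H.le_soc hR
  obtain ⟨b, e, h, hs, hb⟩ := H
  have h1 : ∀ s : ℕ, (Finset.univ.filter (fun i : I => d i = s)).card = finrank K (R.part s) := by
    intro s
    rw [finrank_gr hR.internal.submodule_iSupIndep b d hb s, Nat.card_eq_fintype_card,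
      Fintype.card_subtype]
  rw [← Finset.sum_fiberwise_of_maps_to (s := Finset.univ) (t := Finset.range (R.soc + 1)) (g := d)
    (fun i _ => Finset.mem_range.2 (by have := hds i; omega))]
  refine Finset.sum_congr rfl fun s _ => ?_
  rw [Finset.sum_congr rfl (g := fun _ => ((R.soc : ℤ) - 2 * s) ^ 2)
    (fun i hi => by rw [(Finset.mem_filter.1 hi).2]), Finset.sum_const, nsmul_eq_mul, h1 s, mul_comm]

/-- Adapted bases and the two numbers. -/
theorem exists_adp2 {R : GrAlg.{u, v} K} (hR : IsSymm R) {l : R.A} (hl : l ∈ R.part 1) :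
    ∃ (I : Type) (_ : Fintype I) (a : I → ℤ) (d : I → ℕ), Adp R l a d ∧ ∑ i, a i = 0 ∧
      rankSum R l = ∑ i, a i ^ 2 ∧ rankSum R l ≤ moment R ∧
      (rankSum R l = moment R → IsLefschetz R l) ∧ (IsLefschetz R l → rankSum R l = moment R) := by
  classical
  have := hR.finite
  obtain ⟨S⟩ := Pool.Agent.Y153.MW.stA K R.A (wt R) (mulBy R l) (internal_wt hR) (mul_wt hR hl)
  obtain ⟨e, h, hs⟩ := Pool.Agent.Y664.MW.t_B2 K R.A (wt R) (mulBy R l) S
  have hd : ∀ p : (Σ s : S.ι, Fin (S.len s + 1)), ∃ i : ℕ,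
      (R.soc : ℤ) - 2 * i = S.wt p ∧ S.b p ∈ R.part i :=
    fun p => mem_wt (S.mem p.1 p.2) (S.b.ne_zero p)
  choose d hd1 hd2 using hd
  have H : Adp R l S.ct d := ⟨S.b, e, h, hs, hd2⟩
  have hrank : rankSum R l = ∑ p, S.ct p ^ 2 := Pool.Agent.Y461.MW.h K R.A (wt R) (mulBy R l) S
  have hmom : moment R = ∑ p, S.wt p ^ 2 := by
    rw [moment_eq hR H]
    exact Finset.sum_congr rfl fun p _ => by rw [hd1 p]
  refine ⟨_, inferInstance, S.ct, d, H, ?_, hrank, ?_, ?_, ?_⟩
  · rw [Fintype.sum_sigma]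
    exact Finset.sum_eq_zero fun s _ => string_zero (S.len s)
  · rw [hrank, hmom]
    exact S.sum_ct_le
  · intro heq
    rw [hrank, hmom] at heq
    have h1 := S.sum_ct_eq_iff.1 heq
    refine H.lefschetz hR hl fun p => ?_
    rw [hd1 p, Strings.wt, Strings.ct, h1 p.1]
  · intro hL
    obtain ⟨J, _, a', d', H', -, h2⟩ := exists_adp hR hl
    have h3 := h2 hL
    rw [hrank, sum_indep H H' (fun x => x ^ 2), moment_eq hR H']
    exact Finset.sum_congr rfl fun j _ => by rw [h3 j]

/-- The law for one tensor product. -/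
theorem tensor_defect {R S P : GrAlg.{u, v} K} (hR : IsSymm R) (hS : IsSymm S) (hP : IsSymm P)
    (hT : IsTensor R S P) {L : P.A} (hL : L ∈ P.part 1) :
    ∃ l ∈ R.part 1, ∃ l' ∈ S.part 1,
      rankSum P L = dim S * rankSum R l + dim R * rankSum S l' ∧
      moment P = dim S * moment R + dim R * moment S ∧ dim P = dim R * dim S := by
  classical
  obtain ⟨hsoc, κ, hκ⟩ := hT
  obtain ⟨l, hl, l', hl', rfl⟩ := exists_forms hR hS hP κ hκ hL
  obtain ⟨I, _, a, d, H, ha, hr, -, -, -⟩ := exists_adp2 hR hl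
  obtain ⟨J, _, a', d', H', ha', hr', -, -, -⟩ := exists_adp2 hS hl'
  have H2 := H.prod H' κ hκ
  obtain ⟨I2, _, a2, d2, H3, -, hr2, -, -, -⟩ := exists_adp2 hP hL
  have key : ∀ (x : I → ℤ) (y : J → ℤ), ∑ i, x i = 0 →
      ∑ p : I × J, (x p.1 + y p.2) ^ 2 =
        (Fintype.card J : ℤ) * ∑ i, x i ^ 2 + (Fintype.card I : ℤ) * ∑ j, y j ^ 2 := by
    intro x y hx
    rw [Fintype.sum_prod_type]
    have h1 : ∀ i, ∑ j, (x i + y j) ^ 2 =
        (Fintype.card J : ℤ) * x i ^ 2 + x i * (2 * ∑ j, y j) + ∑ j, y j ^ 2 := by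
      intro i
      have h2 : ∀ j, (x i + y j) ^ 2 = x i ^ 2 + x i * (2 * y j) + y j ^ 2 := fun j => by ring
      rw [Finset.sum_congr rfl fun j _ => h2 j, Finset.sum_add_distrib, Finset.sum_add_distrib,
        Finset.sum_const, Finset.card_univ, nsmul_eq_mul, ← Finset.mul_sum, ← Finset.mul_sum]
    rw [Finset.sum_congr rfl fun i _ => h1 i, Finset.sum_add_distrib, Finset.sum_add_distrib,
      ← Finset.mul_sum, ← Finset.sum_mul, hx, Finset.sum_const, Finset.card_univ, nsmul_eq_mul]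
    ring
  refine ⟨l, hl, l', hl', ?_, ?_, ?_⟩
  · rw [hr2, sum_indep H3 H2 (fun x => x ^ 2), key a a' ha, ← hr, ← hr', H.dim_eq, H'.dim_eq]
  · rw [moment_eq hP H2, moment_eq hR H, moment_eq hS H', H.dim_eq, H'.dim_eq,
      ← key (fun i => (R.soc : ℤ) - 2 * d i) (fun j => (S.soc : ℤ) - 2 * d' j) (H.sum_deg hR)]
    refine Finset.sum_congr rfl fun p _ => ?_
    rw [hsoc]
    push_cast
    ring
  · rw [H2.dim_eq, H.dim_eq, H'.dim_eq, Fintype.card_prod]

/-- The law for tensor powers. -/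
theorem pow_defect {A B : GrAlg.{u, v} K} (hA : IsSymm A) (hB : IsSymm B) (hno : ¬ HasSLP A) {n : ℕ}
    {P : GrAlg.{u, v} K} (hP : IsPow B A n P) :
    IsSymm P ∧ dim P = dim B * dim A ^ n ∧
      ∀ L ∈ P.part 1, (n : ℤ) * dim P ≤ dim A * (moment P - rankSum P L) ∧
      dim A * moment P = dim P * (n * moment A) + dim A * (dim A) ^ n * moment B := by
  induction hP with
  | zero =>
    refine ⟨hB, by simp, fun L hL => ⟨?_, ?_⟩⟩
    · obtain ⟨I, _, a, d, -, -, -, h, -⟩ := exists_adp2 hB hL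
      have h2 : (0 : ℤ) ≤ (dim A : ℤ) * (moment B - rankSum B L) :=
        mul_nonneg (Int.natCast_nonneg _) (by omega)
      simpa using h2
    · simp
  | succ n P Q hPn hQ hT ih =>
    obtain ⟨hPs, hdim, ih⟩ := ih
    refine ⟨hQ, ?_, fun L hL => ?_⟩
    · obtain ⟨l, hl, l', hl', h1, h2, h3⟩ := tensor_defect hPs hA hQ hT (zero_mem (Q.part 1))
      rw [h3, hdim, pow_succ, mul_assoc]
    obtain ⟨l, hl, l', hl', h1, h2, h3⟩ := tensor_defect hPs hA hQ hT hL
    obtain ⟨ih1, ih2⟩ := ih l hl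
    obtain ⟨I, _, a, d, -, -, -, h4, h5, -⟩ := exists_adp2 hA hl'
    have h6 : 1 ≤ moment A - rankSum A l' := by
      have h7 : rankSum A l' ≠ moment A := fun h => hno ⟨l', h5 h⟩
      omega
    have hA0 : (0 : ℤ) ≤ dim A := Int.natCast_nonneg _
    have hP0 : (0 : ℤ) ≤ dim P := Int.natCast_nonneg _
    rw [h1, h2, h3]
    push_cast
    constructor
    · nlinarith [mul_le_mul_of_nonneg_left ih1 hA0, mul_le_mul_of_nonneg_left h6 (mul_nonneg hA0 hP0)]
    · have h7 : (dim A : ℤ) * (dim A * moment P + dim P * moment A) =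
          dim A * (dim A * moment P) + dim A * (dim P * moment A) := by ring
      rw [h7, ih2]
      ring

/-- `rankSum(R, l) ≤ moment R` with equality exactly for the Lefschetz elements. -/
theorem rankSum_le {R : GrAlg.{u, v} K} (hR : IsSymm R) {l : R.A} (hl : l ∈ R.part 1) :
    rankSum R l ≤ moment R ∧ (rankSum R l = moment R ↔ IsLefschetz R l) := by
  obtain ⟨I, _, a, d, -, -, -, h1, h2, h3⟩ := exists_adp2 hR hl
  exact ⟨h1, h2, h3⟩

/-- The criterion for classes. -/
theorem rank_iff {C : Set (GrAlg.{u, v} K)} (hC : ∀ R ∈ C, IsSymm R) (ht : ClosedUnderTensor C) :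
    RankCriterion C := by
  constructor
  · intro h
    refine ⟨fun _ => 0, tendsto_const_nhds, fun R hR => ?_⟩
    obtain ⟨l, hl⟩ := h R hR
    refine ⟨l, hl.1, ?_⟩
    rw [((rankSum_le (hC R hR) hl.1).2.2 hl), sub_zero, one_mul]
  · rintro ⟨g, hg, hr⟩ A hA
    by_contra hno
    have hAs := hC A hA
    have hs := soc_pos hAs hno
    have h1 : Tendsto (fun n : ℕ => (n + 1) * A.soc) atTop atTop :=
      tendsto_atTop_mono (fun n => (Nat.le_succ n).trans (Nat.le_mul_of_pos_right _ hs)) tendsto_id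
    have h2 : Tendsto (fun n : ℕ => g ((n + 1) * A.soc) * (moment A : ℝ)) atTop (𝓝 (0 * (moment A : ℝ))) :=
      (hg.comp h1).mul_const _
    rw [zero_mul] at h2
    obtain ⟨n, hn, hn1⟩ := ((h2.eventually_lt_const (by norm_num : (0 : ℝ) < 1 / 2)).and
      (eventually_ge_atTop 1)).exists
    obtain ⟨P, hP, hPn⟩ := exists_pow_mem hC ht hA n
    obtain ⟨hPs, hsoc, -⟩ := exists_pow hAs hAs hno hPn
    obtain ⟨-, hdim, hd⟩ := pow_defect hAs hAs hno hPn
    obtain ⟨l, hl, hle⟩ := hr P hP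
    obtain ⟨h3, h4⟩ := hd l hl
    have h5 : P.soc = (n + 1) * A.soc := by rw [hsoc]; ring
    rw [h5] at hle
    have h6 : (0 : ℝ) < dim P := by
      have := hPs.nontrivial
      have := hPs.finite
      exact_mod_cast (Module.finrank_pos : 0 < finrank K P.A)
    have h7 : (dim A : ℝ) * moment P = dim P * ((n + 1) * moment A) := by
      have h8 : (dim A : ℤ) * moment P = dim P * ((n + 1) * moment A) := by
        rw [h4, hdim]
        push_cast
        ring
      exact_mod_cast h8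
    have h3' : (n : ℝ) * dim P ≤ dim A * (moment P - rankSum P l) := by exact_mod_cast h3
    have hA0 : (0 : ℝ) ≤ dim A := Nat.cast_nonneg _
    have h9 : (n : ℝ) * dim P ≤ g ((n + 1) * A.soc) * (dim A * moment P) := by
      refine h3'.trans ?_
      have h10 : (moment P : ℝ) - rankSum P l ≤ g ((n + 1) * A.soc) * moment P := by linarith
      have h11 := mul_le_mul_of_nonneg_left h10 hA0
      linarith
    rw [h7] at h9
    have h12 : (n : ℝ) * dim P ≤ (g ((n + 1) * A.soc) * moment A * (n + 1)) * dim P := by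
      refine h9.trans (le_of_eq ?_)
      ring
    have h13 := le_of_mul_le_mul_right h12 h6
    have h14 : g ((n + 1) * A.soc) * (moment A : ℝ) * (n + 1) < 1 / 2 * (n + 1) :=
      mul_lt_mul_of_pos_right hn (by positivity)
    have h15 : (1 : ℝ) ≤ n := by exact_mod_cast hn1
    linarith

end Pool.Agent.X306.LP
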