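import Pool.Agent.X306.LP.Reg

/-!
# Complete intersections of products of linear forms: definitions
-/

set_option autoImplicit false

open Module MvPolynomial

universe u v

namespace Pool.Agent.X306.LP

variable {K : Type u} [Field K]

/-- `f` is a product of `a ≥ 1` linear forms, `a ∈ D`. -/
def IsLinProd (D : Set ℕ) {σ : Type} (f : MvPolynomial σ K) : Prop :=
  ∃ m : Multiset (MvPolynomial σ K), (∀ g ∈ m, g.IsHomogeneous 1) ∧ Multiset.card m ∈ D ∧
    1 ≤ Multiset.card m ∧ f = m.prod

/-- `R = K[X_i, i ∈ σ] / (f_i, i ∈ σ)` as graded algebras, where `σ` is a finite set and the `f_i`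
are products of `a_i ≥ 1` linear forms, `a_i ∈ D` (as many forms as variables). -/
def IsProdAlg (D : Set ℕ) (R : GrAlg.{u, v} K) : Prop :=
  ∃ (σ : Type) (_ : Fintype σ) (f : σ → MvPolynomial σ K) (π : MvPolynomial σ K →ₐ[K] R.A),
    (∀ j, IsLinProd D (f j)) ∧ Function.Surjective π ∧
    RingHom.ker π = Ideal.span (Set.range f) ∧
    ∀ i, R.part i = (homogeneousSubmodule σ K i).map π.toLinearMap

/-- The class of the graded Artinian complete intersections over `K` whose generators are products of
`a_i ≥ 1` linear forms with `a_i ∈ D` (the condition `IsSymm R`, in which `soc R` is the socle degree,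
is automatic by a classical theorem of Macaulay). -/
def PCI (K : Type u) [Field K] (D : Set ℕ) : Set (GrAlg.{u, v} K) := {R | IsSymm R ∧ IsProdAlg D R}

/-- The class `PCI K D` contains the quotients of `K[x_1, ..., x_r]` by the regular sequences
`f_1, ..., f_r` of products of `a_i ≥ 1` linear forms, `a_i ∈ D`. -/
def ContainsProducts (K : Type u) [Field K] (D : Set ℕ) : Prop :=
  ∀ (r : ℕ) (m : Fin r → Multiset (MvPolynomial (Fin r) K)),
    (∀ i, ∀ g ∈ m i, g.IsHomogeneous 1) → (∀ i, Multiset.card (m i) ∈ D) →
    (∀ i, 1 ≤ Multiset.card (m i)) →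
    RingTheory.Sequence.IsRegular (MvPolynomial (Fin r) K) (List.ofFn fun i => (m i).prod) →
    quot (fun i => (m i).prod) (fun i => Multiset.card (m i)) ∈ PCI.{u, u} K D

end Pool.Agent.X306.LP
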