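import Pool.Agent.X306.LP.CI
import Pool.Agent.X306.LP.Reg
import Pool.Agent.X306.LP.ProdDefs

/-!
# Complete intersections of products of linear forms are closed under tensor products
-/

set_option autoImplicit false

open Module TensorProduct MvPolynomial

universe u v

namespace Pool.Agent.X306.LP

variable {K : Type u} [Field K]

theorem IsLinProd.rename {D : Set ℕ} {σ τ : Type} {f : MvPolynomial σ K} (h : IsLinProd D f)
    (g : σ → τ) : IsLinProd D (MvPolynomial.rename g f) := by
  obtain ⟨m, hm, hD, h1, rfl⟩ := h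
  refine ⟨m.map (MvPolynomial.rename g), ?_, by rwa [Multiset.card_map], by rwa [Multiset.card_map], ?_⟩
  · intro p hp
    obtain ⟨q, hq, rfl⟩ := Multiset.mem_map.1 hp
    exact (hm q hq).rename_isHomogeneous
  · exact map_multiset_prod _ _

theorem prod_homog {σ : Type} (m : Multiset (MvPolynomial σ K)) (hm : ∀ g ∈ m, g.IsHomogeneous 1) :
    m.prod.IsHomogeneous (Multiset.card m) := by
  induction m using Multiset.induction_on with
  | empty => simpa using isHomogeneous_one σ K
  | cons a m ih =>
    rw [Multiset.prod_cons, Multiset.card_cons, add_comm]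
    exact (hm a (Multiset.mem_cons_self a m)).mul
      (ih fun g hg => hm g (Multiset.mem_cons_of_mem hg))

theorem isProdAlg_tensor {D : Set ℕ} {R S : GrAlg.{u, v} K} (hR : IsProdAlg D R)
    (hS : IsProdAlg D S) : IsProdAlg D (tensor R S) := by
  classical
  obtain ⟨σ, _, f, πR, hf, hRs, hRk, hRp⟩ := hR
  obtain ⟨τ, _, g, πS, hg, hSs, hSk, hSp⟩ := hS
  let e := tensorEquivSum K σ τ K
  let π : MvPolynomial (σ ⊕ τ) K →ₐ[K] R.A ⊗[K] S.A :=
    (Algebra.TensorProduct.map πR πS).comp e.symm.toAlgHom
  have hl : ∀ p, π (rename Sum.inl p) = πR p ⊗ₜ 1 := by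
    intro p
    show (Algebra.TensorProduct.map πR πS) (e.symm (rename Sum.inl p)) = _
    rw [← equiv_left (τ := τ) p, AlgEquiv.symm_apply_apply, Algebra.TensorProduct.map_tmul, map_one]
  have hr : ∀ q, π (rename Sum.inr q) = 1 ⊗ₜ πS q := by
    intro q
    show (Algebra.TensorProduct.map πR πS) (e.symm (rename Sum.inr q)) = _
    rw [← equiv_right (σ := σ) q, AlgEquiv.symm_apply_apply, Algebra.TensorProduct.map_tmul, map_one]
  have hlr : ∀ p q, π (rename Sum.inl p * rename Sum.inr q) = πR p ⊗ₜ πS q := by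
    intro p q
    rw [map_mul, hl, hr, Algebra.TensorProduct.tmul_mul_tmul, one_mul, mul_one]
  have hsurj : Function.Surjective π := by
    have h1 : Function.Surjective (Algebra.TensorProduct.map πR πS) :=
      TensorProduct.map_surjective hRs hSs
    exact h1.comp e.symm.surjective
  have hker : RingHom.ker π = Ideal.span (Set.range
      (Sum.elim (fun i => rename Sum.inl (f i)) (fun j => rename Sum.inr (g j)) :
        σ ⊕ τ → MvPolynomial (σ ⊕ τ) K)) := by
    have h1 := Algebra.TensorProduct.map_ker πR πS hRs hSs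
    have h2 : RingHom.ker π = (RingHom.ker (Algebra.TensorProduct.map πR πS)).map e.toAlgHom.toRingHom := by
      ext x
      rw [RingHom.mem_ker]
      constructor
      · intro hx
        have h3 : e.symm x ∈ RingHom.ker (Algebra.TensorProduct.map πR πS) := by
          rw [RingHom.mem_ker]; exact hx
        have h4 := Ideal.mem_map_of_mem e.toAlgHom.toRingHom h3
        have h5 : e.toAlgHom.toRingHom (e.symm x) = x := e.apply_symm_apply x
        rwa [h5] at h4
      · intro hx
        have h3 : (RingHom.ker (Algebra.TensorProduct.map πR πS)).map e.toAlgHom.toRingHom ≤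
            RingHom.ker π := by
          rw [Ideal.map_le_iff_le_comap]
          intro y hy
          rw [Ideal.mem_comap, RingHom.mem_ker]
          show (Algebra.TensorProduct.map πR πS) (e.symm (e y)) = 0
          rw [AlgEquiv.symm_apply_apply]
          exact hy
        exact h3 hx
    rw [h2, h1, Ideal.map_sup, hRk, hSk, Ideal.map_span, Ideal.map_span, Ideal.map_span, Ideal.map_span,
      ← Ideal.span_union]
    congr 1
    ext x
    constructor
    · rintro (⟨_, ⟨_, ⟨i, rfl⟩, rfl⟩, rfl⟩ | ⟨_, ⟨_, ⟨j, rfl⟩, rfl⟩, rfl⟩)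
      · exact ⟨Sum.inl i, (equiv_left (τ := τ) (f i)).symm⟩
      · exact ⟨Sum.inr j, (equiv_right (σ := σ) (g j)).symm⟩
    · rintro ⟨i | j, rfl⟩
      · exact Or.inl ⟨_, ⟨_, ⟨i, rfl⟩, rfl⟩, equiv_left (τ := τ) (f i)⟩
      · exact Or.inr ⟨_, ⟨_, ⟨j, rfl⟩, rfl⟩, equiv_right (σ := σ) (g j)⟩
  refine ⟨σ ⊕ τ, inferInstance, _, π, ?_, hsurj, hker, ?_⟩
  · rintro (i | j)
    · exact (hf i).rename Sum.inl
    · exact (hg j).rename Sum.inr
  · intro k
    show tpart R S k = _
    apply le_antisymm
    · refine Submodule.span_le.2 ?_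
      rintro _ ⟨i, j, x, y, hij, hx, hy, rfl⟩
      rw [hRp i] at hx
      rw [hSp j] at hy
      obtain ⟨p, hp, rfl⟩ := hx
      obtain ⟨q, hq, rfl⟩ := hy
      have hp' : p.IsHomogeneous i := hp
      have hq' : q.IsHomogeneous j := hq
      refine ⟨rename Sum.inl p * rename Sum.inr q, ?_, hlr p q⟩
      have h := hp'.rename_isHomogeneous (f := (Sum.inl : σ → σ ⊕ τ)) |>.mul
        (hq'.rename_isHomogeneous (f := (Sum.inr : τ → σ ⊕ τ)))
      rw [hij] at h
      exact h
    · rintro _ ⟨p, hp, rfl⟩
      have hp' : p.IsHomogeneous k := hp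
      rw [p.as_sum, map_sum]
      refine Submodule.sum_mem _ fun m hm => ?_
      obtain ⟨m1, m2, h12⟩ := monomial_split (K := K) m
      have h1 : monomial m (coeff m p) = coeff m p • monomial m (1 : K) := by
        rw [smul_monomial, smul_eq_mul, mul_one]
      have hmk : (monomial m (1 : K)).IsHomogeneous k := by
        have h2 : m.degree = k := by
          by_contra hne
          exact (mem_support_iff.1 hm) (hp'.coeff_eq_zero hne)
        exact isHomogeneous_monomial _ h2
      have hm1 : (monomial m1 (1 : K)).IsHomogeneous m1.degree := isHomogeneous_monomial _ rfl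
      have hm2 : (monomial m2 (1 : K)).IsHomogeneous m2.degree := isHomogeneous_monomial _ rfl
      have h3 := (hm1.rename_isHomogeneous (f := (Sum.inl : σ → σ ⊕ τ))).mul
        (hm2.rename_isHomogeneous (f := (Sum.inr : τ → σ ⊕ τ)))
      rw [← h12] at h3
      have h4 : m1.degree + m2.degree = k := h3.inj_right hmk (by
        rw [Ne, monomial_eq_zero]; exact one_ne_zero)
      rw [h1, map_smul, h12]
      have h5 : π.toLinearMap (rename Sum.inl (monomial m1 1) * rename Sum.inr (monomial m2 1)) =
          πR (monomial m1 1) ⊗ₜ πS (monomial m2 1) := hlr _ _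
      have h6 : πR (monomial m1 1) ⊗ₜ πS (monomial m2 1) ∈ tpart R S k := by
        refine tpart_mem h4 ?_ ?_
        · rw [hRp]; exact ⟨_, hm1, rfl⟩
        · rw [hSp]; exact ⟨_, hm2, rfl⟩
      rw [← h5] at h6
      exact Submodule.smul_mem _ _ h6

theorem closed_PCI [CharZero K] (D : Set ℕ) : ClosedUnderTensor (PCI.{u, v} K D) :=
  fun R hR S hS => ⟨tensor R S, ⟨isSymm_tensor hR.1 hS.1, isProdAlg_tensor hR.2 hS.2⟩,
    isTensor_tensor R S⟩

theorem contains_products (K : Type u) [Field K] (D : Set ℕ) : ContainsProducts K D := by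
  intro r m hm hD h1 hreg
  have h := (quot_mem_CI Set.univ (fun i => (m i).prod) (fun i => Multiset.card (m i))
    (fun i => prod_homog (m i) (hm i)) h1 (fun _ => Set.mem_univ _) hreg).1
  exact ⟨h, Fin r, inferInstance, fun i => (m i).prod, Ideal.Quotient.mkₐ K _,
    fun i => ⟨m i, hm i, hD i, h1 i, rfl⟩,
    Ideal.Quotient.mkₐ_surjective K _, Ideal.Quotient.mkₐ_ker K _, fun i => rfl⟩

end Pool.Agent.X306.LP
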