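import Pool.Agent.X306.LP.Defs
import Pool.Agent.Y153.MW.A
import Pool.Agent.Y614.MW.F
import Pool.Agent.Y141.MW.L
import Pool.Agent.Y68.MW.D
import Pool.Agent.Y664.MW.B2
import Pool.Agent.Y210.MW.B3
import Pool.Agent.Y163.MW.Lin

/-!
# Adapted bases of graded algebras with a linear form
-/

set_option autoImplicit false

open Module TensorProduct

universe u v

namespace Pool.Agent.X306.LP

open Pool.Agent.Y143 Pool.Agent.Y163.MW

variable {K : Type u} [Field K] {R : GrAlg.{u, v} K} {l : R.A}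

theorem mulBy_apply (R : GrAlg.{u, v} K) (l x : R.A) : mulBy R l x = l * x := rfl

theorem mulBy_pow (R : GrAlg.{u, v} K) (l x : R.A) (k : ℕ) : (mulBy R l ^ k) x = l ^ k * x := by
  induction k generalizing x with
  | zero => simp
  | succ k ih => rw [pow_succ, Module.End.mul_apply, ih, mulBy_apply, pow_succ]; ring

theorem pow_mem (hR : IsSymm R) (hl : l ∈ R.part 1) (k : ℕ) {i : ℕ} {x : R.A} (hx : x ∈ R.part i) :
    l ^ k * x ∈ R.part (i + k) := by
  induction k with
  | zero => simpa using hx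
  | succ k ih =>
    have h := hR.mul 1 (i + k) _ _ hl ih
    rw [show i + (k + 1) = 1 + (i + k) by ring]
    rwa [pow_succ', mul_assoc]

/-- A basis adapted to `l`. -/
def Adp (R : GrAlg.{u, v} K) (l : R.A) {I : Type} (a : I → ℤ) (d : I → ℕ) : Prop :=
  ∃ (b : Basis I K R.A) (e h : Module.End K R.A), IsSl2 (mulBy R l) b a e h ∧
    ∀ i, b i ∈ R.part (d i)

theorem Adp.reindex {I J : Type} {a : I → ℤ} {d : I → ℕ} (H : Adp R l a d) (E : I ≃ J)
    (a' : J → ℤ) (d' : J → ℕ)
    (ha : ∀ j, a' j = a (E.symm j)) (hd : ∀ j, d' j = d (E.symm j)) : Adp R l a' d' := by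
  obtain ⟨b, e, h, hs, hb⟩ := H
  refine ⟨b.reindex E, e, h, ⟨fun j => ?_, hs.eN, hs.hN, hs.he⟩, fun j => ?_⟩
  · rw [Basis.reindex_apply, ha]
    exact hs.wt _
  · rw [Basis.reindex_apply, hd]
    exact hb _

/-- The part of weight `c`. -/
def wt (R : GrAlg.{u, v} K) (c : ℤ) : Submodule K R.A :=
  ⨆ (i : ℕ) (_ : (R.soc : ℤ) - 2 * i = c), R.part i

theorem mem_wt {c : ℤ} {x : R.A} (hx : x ∈ wt R c) (h0 : x ≠ 0) :
    ∃ i : ℕ, (R.soc : ℤ) - 2 * i = c ∧ x ∈ R.part i := by
  by_cases h : ∃ i : ℕ, (R.soc : ℤ) - 2 * i = c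
  · obtain ⟨i, hi⟩ := h
    refine ⟨i, hi, ?_⟩
    have h1 : wt R c ≤ R.part i := by
      refine iSup₂_le fun j hj => ?_
      have : j = i := by omega
      rw [this]
    exact h1 hx
  · exfalso
    apply h0
    have h1 : wt R c ≤ ⊥ := iSup₂_le fun j hj => absurd ⟨j, hj⟩ h
    exact (Submodule.mem_bot K).1 (h1 hx)

theorem part_le (i : ℕ) : R.part i ≤ wt R ((R.soc : ℤ) - 2 * i) :=
  le_iSup₂_of_le (f := fun (j : ℕ) (_ : (R.soc : ℤ) - 2 * j = (R.soc : ℤ) - 2 * i) => R.part j)
    i rfl le_rfl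

theorem internal_wt (hR : IsSymm R) : DirectSum.IsInternal (wt R) := by
  rw [DirectSum.isInternal_submodule_iff_iSupIndep_and_iSup_eq_top]
  refine ⟨iSupIndep_fib hR.internal.submodule_iSupIndep (fun i : ℕ => (R.soc : ℤ) - 2 * i), ?_⟩
  rw [show (⨆ c, wt R c) = ⨆ i, R.part i from iSup_fib R.part (fun i : ℕ => (R.soc : ℤ) - 2 * i)]
  exact hR.internal.submodule_iSup_eq_top

theorem mul_wt (hR : IsSymm R) (hl : l ∈ R.part 1) (c : ℤ) : ∀ x ∈ wt R c, mulBy R l x ∈ wt R (c - 2) := by
  intro x hx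
  by_cases h0 : x = 0
  · rw [h0, map_zero]; exact zero_mem _
  · obtain ⟨i, hi, hxi⟩ := mem_wt hx h0
    have h1 := part_le (R := R) _ (hR.mul 1 i _ _ hl hxi)
    rw [show (R.soc : ℤ) - 2 * ((1 + i : ℕ) : ℤ) = c - 2 by push_cast; omega] at h1
    exact h1

theorem string_zero (l : ℕ) : ∑ i : Fin (l + 1), ((l : ℤ) - 2 * ((i : ℕ) : ℤ)) = 0 := by
  rw [Fin.sum_univ_eq_sum_range (fun i => (l : ℤ) - 2 * (i : ℤ)) (l + 1)]
  have h : ∀ (n : ℕ) (s : ℤ), ∑ i ∈ Finset.range n, (s - 2 * (i : ℤ)) = n * s - n * (n - 1) := by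
    intro n s
    induction n with
    | zero => simp
    | succ n ih =>
      rw [Finset.sum_range_succ, ih]
      push_cast
      ring
  rw [h]
  push_cast
  ring

/-- Existence of adapted bases; they have `δ = 0` for Lefschetz elements. -/
theorem exists_adp [CharZero K] (hR : IsSymm R) (hl : l ∈ R.part 1) :
    ∃ (I : Type) (_ : Fintype I) (a : I → ℤ) (d : I → ℕ), Adp R l a d ∧ ∑ i, a i = 0 ∧
      (IsLefschetz R l → ∀ i, (R.soc : ℤ) - 2 * d i = a i) := by
  classical
  have := hR.finite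
  obtain ⟨S⟩ := Pool.Agent.Y153.MW.stA K R.A (wt R) (mulBy R l) (internal_wt hR) (mul_wt hR hl)
  obtain ⟨e, h, hs⟩ := Pool.Agent.Y664.MW.t_B2 K R.A (wt R) (mulBy R l) S
  have hd : ∀ p : (Σ s : S.ι, Fin (S.len s + 1)), ∃ i : ℕ,
      (R.soc : ℤ) - 2 * i = S.top p.1 - 2 * ((p.2 : ℕ) : ℤ) ∧ S.b p ∈ R.part i :=
    fun p => mem_wt (S.mem p.1 p.2) (S.b.ne_zero p)
  choose d hd1 hd2 using hd
  refine ⟨Σ s : S.ι, Fin (S.len s + 1), inferInstance, fun p => (S.len p.1 : ℤ) - 2 * ((p.2 : ℕ) : ℤ),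
    d, ⟨S.b, e, h, hs, hd2⟩, ?_, ?_⟩
  · rw [Fintype.sum_sigma]
    exact Finset.sum_eq_zero fun s _ => string_zero (S.len s)
  · intro hL p
    have hc : Centred (wt R) (mulBy R l) := by
      intro a
      have hdim : ∀ i : ℕ, (R.soc : ℤ) - 2 * i = a → i ≤ R.soc →
          (∀ x ∈ R.part i, l ^ a * x = 0 → x = 0) ∧
          ∀ y ∈ R.part (i + a), ∃ x ∈ R.part i, l ^ a * x = y := by
        intro i hi his
        have hia : i + a = R.soc - i := by omega
        have hmap : ∀ x ∈ R.part i, (mulBy R l ^ a) x ∈ R.part (i + a) := fun x hx => by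
          rw [mulBy_pow]; exact pow_mem hR hl a hx
        set f : R.part i →ₗ[K] R.part (i + a) := (mulBy R l ^ a).restrict hmap with hf
        have hfx : ∀ x, (f x : R.A) = l ^ a * (x : R.A) := fun x => mulBy_pow R l x a
        have hfr : finrank K (R.part i) = finrank K (R.part (i + a)) := by
          rw [hia]; exact hR.symm i his
        have hiff : Function.Injective f ↔ Function.Surjective f :=
          LinearMap.injective_iff_surjective_of_finrank_eq_finrank hfr
        have hinj : Function.Injective f := by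
          rcases hL.2 i a with h1 | h1
          · rw [injective_iff_map_eq_zero]
            intro x hx
            have h2 : l ^ a * (x : R.A) = 0 := by rw [← hfx, hx]; rfl
            exact Subtype.ext (h1 x x.2 h2)
          · refine hiff.2 fun y => ?_
            obtain ⟨x, hx, hxy⟩ := h1 y y.2
            exact ⟨⟨x, hx⟩, Subtype.ext (by rw [hfx]; exact hxy)⟩
        refine ⟨fun x hx h2 => ?_, fun y hy => ?_⟩
        · have h3 : f ⟨x, hx⟩ = 0 := Subtype.ext (by rw [hfx]; exact h2)
          have h4 := hinj (h3.trans (map_zero f).symm)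
          exact congrArg Subtype.val h4
        · obtain ⟨x, hx⟩ := hiff.1 hinj ⟨y, hy⟩
          exact ⟨x, x.2, by rw [← hfx, hx]⟩
      refine ⟨fun x hx h2 => ?_, fun y hy => ?_⟩
      · by_contra h0
        obtain ⟨i, hi, hxi⟩ := mem_wt hx h0
        have his : i ≤ R.soc := by
          by_contra h3
          have h4 := hR.zero i (by omega)
          rw [h4] at hxi
          exact h0 ((Submodule.mem_bot K).1 hxi)
        rw [mulBy_pow] at h2
        exact h0 ((hdim i hi his).1 x hxi h2)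
      · by_cases h0 : y = 0
        · exact ⟨0, zero_mem _, by rw [h0, map_zero]⟩
        obtain ⟨j, hj, hyj⟩ := mem_wt hy h0
        have hjs : j ≤ R.soc := by
          by_contra h3
          have h4 := hR.zero j (by omega)
          rw [h4] at hyj
          exact h0 ((Submodule.mem_bot K).1 hyj)
        have h5 : (R.soc : ℤ) - 2 * ((R.soc - j : ℕ) : ℤ) = a := by
          rw [Nat.cast_sub hjs]; omega
        have h6 : R.soc - j + a = j := by omega
        obtain ⟨x, hx, hxy⟩ := (hdim (R.soc - j) h5 (by omega)).2 y (by rw [h6]; exact hyj)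
        have h7 := part_le (R := R) _ hx
        rw [h5] at h7
        exact ⟨x, h7, by rw [mulBy_pow]; exact hxy⟩
    have ht := (Pool.Agent.Y614.MW.stF K R.A (wt R) (mulBy R l) (internal_wt hR) S).1 hc
    show (R.soc : ℤ) - 2 * d p = (S.len p.1 : ℤ) - 2 * ((p.2 : ℕ) : ℤ)
    rw [hd1 p, ht p.1]

section adp

variable [CharZero K] {I : Type} [Fintype I] {a : I → ℤ} {d : I → ℕ}

theorem Adp.dim_eq (H : Adp R l a d) : dim R = Fintype.card I := by
  obtain ⟨b, -⟩ := H
  exact finrank_eq_card_basis b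

theorem nilp (H : Adp R l a d) : IsMonodromyFiltrationOn ⊤ (mulBy R l) (monFil (mulBy R l)) := by
  obtain ⟨b, e, h, hs, -⟩ := H
  have h1 := Pool.Agent.Y68.MW.fil_monodromy Pool.Agent.Y141.MW.stL hs
  refine (isMonodromyFiltration_monFil ?_).on
  obtain ⟨s, hs1⟩ := h1.bot
  obtain ⟨t, ht⟩ := h1.top
  refine ⟨(t - s).toNat, LinearMap.ext fun x => ?_⟩
  have h2 : x ∈ Pool.Agent.Y68.MW.fil b a t := by rw [ht]; trivial
  have h3 := h1.mono (show t - 2 * ((t - s).toNat : ℤ) ≤ s by omega)
    (h1.pow_map (t - s).toNat t x h2)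
  rw [hs1] at h3
  exact (Submodule.mem_bot K).1 h3

theorem Adp.le_soc (hR : IsSymm R) (H : Adp R l a d) (i : I) : d i ≤ R.soc := by
  obtain ⟨b, -, -, -, hb⟩ := H
  by_contra h
  have h1 := hb i
  rw [hR.zero _ (by omega)] at h1
  exact b.ne_zero i ((Submodule.mem_bot K).1 h1)

/-- The number `right(R, l)` in terms of an adapted basis. -/
theorem Adp.right_eq (hR : IsSymm R) (H : Adp R l a d) :
    right R l = Nat.card {i // (R.soc : ℤ) - 2 * d i - a i = 0} := by
  classical
  have hM := nilp H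
  have hds := H.le_soc hR
  obtain ⟨b, e, h, hs, hb⟩ := H
  have h1 := Pool.Agent.Y68.MW.stD Pool.Agent.Y141.MW.stL K R.A (mulBy R l) I b a e h hs _ hM
  have h2 : ∀ (r : ℤ) (s : ℕ), finrank K (mon R l r ⊓ R.part s : Submodule K R.A) =
      Nat.card {i // a i ≤ r ∧ d i = s} := by
    intro r s
    rw [mon, h1 r, gr_eq_span hR.internal.submodule_iSupIndep b d hb s, span_image_inf,
      finrank_span_image]
    rfl
  have h3 : ∀ s : ℕ, bigraded R l s ((R.soc : ℤ) - 2 * s) =
      ((Finset.univ.filter (fun i : I => (R.soc : ℤ) - 2 * d i - a i = 0)).filter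
        (fun i => d i = s)).card := by
    intro s
    rw [bigraded, h2, h2]
    have h4 : Nat.card {i // a i ≤ (R.soc : ℤ) - 2 * s ∧ d i = s} =
        Nat.card {i // a i ≤ (R.soc : ℤ) - 2 * s - 1 ∧ d i = s} +
        ((Finset.univ.filter (fun i : I => (R.soc : ℤ) - 2 * d i - a i = 0)).filter
          (fun i => d i = s)).card := by
      rw [Nat.card_eq_fintype_card, Nat.card_eq_fintype_card,
        Fintype.card_subtype, Fintype.card_subtype, ← Finset.card_union_of_disjoint]
      · congr 1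
        ext i
        simp only [Finset.mem_filter, Finset.mem_univ, true_and, Finset.mem_union]
        constructor
        · rintro ⟨h5, h6⟩
          rw [h6]
          omega
        · rintro (⟨h5, h6⟩ | ⟨h5, h6⟩)
          · exact ⟨by omega, h6⟩
          · rw [h6] at h5
            exact ⟨by omega, h6⟩
      · rw [Finset.disjoint_left]
        intro i h5 h6
        simp only [Finset.mem_filter, Finset.mem_univ, true_and] at h5 h6
        rw [h6.2] at h6
        omega
    rw [h4]
    push_cast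
    ring
  unfold right
  rw [Finset.sum_congr rfl fun s _ => h3 s, Nat.card_eq_fintype_card, Fintype.card_subtype,
    Finset.card_eq_sum_card_fiberwise (f := d) (t := Finset.range (R.soc + 1))
      (fun i _ => by
        have := hds i
        simp only [Finset.coe_range, Set.mem_Iio]
        omega)]
  push_cast
  rfl

theorem part_eq (hR : IsSymm R) (b : Basis I K R.A) (hb : ∀ i, b i ∈ R.part (d i)) (s : ℕ) :
    R.part s = Submodule.span K (b '' {i | d i = s}) :=
  gr_eq_span hR.internal.submodule_iSupIndep b d hb s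

/-- If `δ = 0`, then `l` is a Lefschetz element. -/
theorem Adp.lefschetz (hR : IsSymm R) (hl : l ∈ R.part 1) (H : Adp R l a d)
    (h0 : ∀ i, (R.soc : ℤ) - 2 * d i = a i) : IsLefschetz R l := by
  classical
  have hds := H.le_soc hR
  obtain ⟨b, e, h, hs, hb⟩ := H
  have hL := Pool.Agent.Y141.MW.stL K R.A (mulBy R l) I b a e h hs
  have h1 : ∀ (s : ℕ) (x : R.A), x ∈ R.part s → h x = (((R.soc : ℤ) - 2 * s : ℤ) : K) • x := by
    intro s x hx
    rw [part_eq hR b hb s] at hx
    induction hx using Submodule.span_induction with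
    | mem x hx =>
      obtain ⟨i, hi, rfl⟩ := hx
      rw [hs.wt i, ← h0 i, show d i = s from hi]
    | zero => simp
    | add x y _ _ hx hy => rw [map_add, hx, hy, smul_add]
    | smul c x _ hx => rw [map_smul, hx, smul_comm]
  have h2 : ∀ (s : ℕ) (x : R.A), h x = (((R.soc : ℤ) - 2 * s : ℤ) : K) • x → x ∈ R.part s := by
    intro s x hx
    rw [part_eq hR b hb s, Basis.mem_span_image]
    intro i hi
    by_contra h3
    have h4 : a i ≠ (R.soc : ℤ) - 2 * s := by
      rw [← h0 i]
      intro h5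
      apply h3
      show d i = s
      omega
    exact (Finsupp.mem_support_iff.1 hi) (Pool.Agent.Y68.MW.repr_eq_zero hs hx h4)
  refine ⟨hl, fun i k => ?_⟩
  rcases le_or_gt (2 * i + k) R.soc with hik | hik
  · left
    intro x hx hkx
    obtain ⟨m, hm⟩ : ∃ m : ℕ, R.soc = 2 * i + m := ⟨R.soc - 2 * i, by omega⟩
    refine (hL m).1 x ?_ ?_
    · rw [h1 i x hx, hm]
      congr 1
      push_cast
      ring
    · obtain ⟨t, rfl⟩ := Nat.exists_eq_add_of_le (show k ≤ m by omega)
      rw [mulBy_pow, pow_add, mul_comm (l ^ k), mul_assoc, hkx, mul_zero]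
  · right
    intro y hy
    rcases le_or_gt (i + k) R.soc with h3 | h3
    · obtain ⟨j, hj⟩ : ∃ j : ℕ, R.soc = i + k + j := ⟨R.soc - (i + k), by omega⟩
      obtain ⟨t, ht⟩ : ∃ t : ℕ, i = j + t := ⟨i - j, by omega⟩
      obtain ⟨x, hx1, hx2⟩ := (hL (t + k)).2 y (by
        rw [h1 _ y hy, hj, ht]
        congr 1
        push_cast
        ring)
      have hxj : x ∈ R.part j := h2 j x (by
        rw [hx1, hj, ht]
        congr 1
        push_cast
        ring)
      refine ⟨l ^ t * x, ?_, ?_⟩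
      · rw [ht]
        exact pow_mem hR hl t hxj
      · rw [← mul_assoc, ← pow_add, add_comm k t, ← mulBy_pow]
        exact hx2
    · refine ⟨0, zero_mem _, ?_⟩
      rw [hR.zero _ h3] at hy
      rw [mul_zero, (Submodule.mem_bot K).1 hy]

/-- The sum of the `s - 2 d` is zero. -/
theorem Adp.sum_deg (hR : IsSymm R) (H : Adp R l a d) : ∑ i, ((R.soc : ℤ) - 2 * d i) = 0 := by
  classical
  have hds := H.le_soc hR
  obtain ⟨b, e, h, hs, hb⟩ := H
  have h1 : ∀ s : ℕ, (Finset.univ.filter (fun i : I => d i = s)).card = finrank K (R.part s) := by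
    intro s
    rw [finrank_gr hR.internal.submodule_iSupIndep b d hb s, Nat.card_eq_fintype_card,
      Fintype.card_subtype]
  have h2 : ∑ i, ((R.soc : ℤ) - 2 * d i) =
      ∑ s ∈ Finset.range (R.soc + 1), (finrank K (R.part s) : ℤ) * ((R.soc : ℤ) - 2 * s) := by
    rw [← Finset.sum_fiberwise_of_maps_to (s := Finset.univ) (t := Finset.range (R.soc + 1)) (g := d)
      (fun i _ => Finset.mem_range.2 (by have := hds i; omega))]
    refine Finset.sum_congr rfl fun s _ => ?_
    rw [Finset.sum_congr rfl (g := fun _ => (R.soc : ℤ) - 2 * s)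
      (fun i hi => by rw [(Finset.mem_filter.1 hi).2]), Finset.sum_const, nsmul_eq_mul, h1 s]
  have h3 := Finset.sum_range_reflect
    (fun s => (finrank K (R.part s) : ℤ) * ((R.soc : ℤ) - 2 * s)) (R.soc + 1)
  have h4 : ∀ s ∈ Finset.range (R.soc + 1),
      (finrank K (R.part (R.soc + 1 - 1 - s)) : ℤ) * ((R.soc : ℤ) - 2 * ((R.soc + 1 - 1 - s : ℕ) : ℤ)) =
      -((finrank K (R.part s) : ℤ) * ((R.soc : ℤ) - 2 * s)) := by
    intro s hs
    have h5 : s ≤ R.soc := by have := Finset.mem_range.1 hs; omega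
    rw [Nat.add_sub_cancel, ← hR.symm s h5, Nat.cast_sub h5]
    ring
  rw [Finset.sum_congr rfl h4, Finset.sum_neg_distrib] at h3
  rw [h2]
  omega

end adp

end Pool.Agent.X306.LP
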