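import Pool.Agent.Y143.Mon

/-!
# Graded Artinian algebras with symmetric Hilbert function and their Lefschetz elements: definitions
-/

set_option autoImplicit false

open Module TensorProduct

universe u v

namespace Pool.Agent.X306.LP

/-- The data of a graded commutative algebra over `K` with a number `soc` (the socle degree). -/
structure GrAlg (K : Type u) [Field K] where
  /-- the algebra -/
  A : Type v
  [commRing : CommRing A]
  [algebra : Algebra K A]
  /-- the part of degree `i` -/
  part : ℕ → Submodule K A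
  /-- the socle degree -/
  soc : ℕ

attribute [instance] GrAlg.commRing GrAlg.algebra

variable {K : Type u} [Field K]

/-- `R = R_0 ⊕ R_1 ⊕ ... ⊕ R_s` is a nonzero graded algebra of finite dimension with `R_0 = K` and a
symmetric Hilbert function: `dim R_i = dim R_(s - i)`, `s = soc`. (For example, a graded Artinian
Gorenstein algebra with socle degree `s`.) -/
structure IsSymm (R : GrAlg.{u, v} K) : Prop where
  finite : Module.Finite K R.A
  internal : DirectSum.IsInternal R.part
  mul : ∀ i j x y, x ∈ R.part i → y ∈ R.part j → x * y ∈ R.part (i + j)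
  conn : R.part 0 = Submodule.span K {1}
  nontrivial : Nontrivial R.A
  zero : ∀ i, R.soc < i → R.part i = ⊥
  symm : ∀ i, i ≤ R.soc → finrank K (R.part i) = finrank K (R.part (R.soc - i))

/-- The dimension of `R`. -/
noncomputable def dim (R : GrAlg.{u, v} K) : ℕ := finrank K R.A

/-- `l` is a strong Lefschetz element: a linear form such that all the maps
`l ^ k : R_i → R_(i + k)` are injective or surjective. -/
def IsLefschetz (R : GrAlg.{u, v} K) (l : R.A) : Prop :=
  l ∈ R.part 1 ∧ ∀ i k : ℕ, (∀ x ∈ R.part i, l ^ k * x = 0 → x = 0) ∨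
    ∀ y ∈ R.part (i + k), ∃ x ∈ R.part i, l ^ k * x = y

/-- `R` has the strong Lefschetz property. -/
def HasSLP (R : GrAlg.{u, v} K) : Prop := ∃ l, IsLefschetz R l

/-- The multiplication by `l`. -/
noncomputable def mulBy (R : GrAlg.{u, v} K) (l : R.A) : Module.End K R.A := LinearMap.mulLeft K l

/-- The monodromy filtration of the multiplication by `l`: the space `M_k` is the sum of the spaces
`l ^ j Ker (l ^ (k + 1 + 2 j))` for `j ≥ 0`, `j ≥ -k`. -/
noncomputable def mon (R : GrAlg.{u, v} K) (l : R.A) (k : ℤ) : Submodule K R.A :=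
  Pool.Agent.Y143.monFil (mulBy R l) k

/-- The dimension of the part of degree `i` and monodromy weight `k` (of the part of degree `i` of
`M_k / M_(k - 1)`). -/
noncomputable def bigraded (R : GrAlg.{u, v} K) (l : R.A) (i : ℕ) (k : ℤ) : ℤ :=
  (finrank K (mon R l k ⊓ R.part i : Submodule K R.A) : ℤ) -
    finrank K (mon R l (k - 1) ⊓ R.part i : Submodule K R.A)

/-- The number `right(R, l)`: the dimension of the part of the bigraded space `gr^M R` where the
monodromy weight is the one predicted by the strong Lefschetz property: `s - 2 i` in degree `i`.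
Equivalently, the sum of the lengths of the strings (Jordan blocks) of `l` which reach from the
degree `i` to the degree `s - i` for some `i`. -/
noncomputable def right (R : GrAlg.{u, v} K) (l : R.A) : ℤ :=
  ∑ i ∈ Finset.range (R.soc + 1), bigraded R l i ((R.soc : ℤ) - 2 * i)

/-- `P = R ⊗ S` as graded algebras. -/
def IsTensor (R S P : GrAlg.{u, v} K) : Prop :=
  P.soc = R.soc + S.soc ∧ ∃ κ : R.A ⊗[K] S.A ≃ₐ[K] P.A,
    ∀ (i j : ℕ) (x : R.A) (y : S.A), x ∈ R.part i → y ∈ S.part j → κ (x ⊗ₜ y) ∈ P.part (i + j)

/-- `IsPow B A n P` means `P = B ⊗ A ⊗ ... ⊗ A` with `n` factors `A`. -/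
inductive IsPow (B A : GrAlg.{u, v} K) : ℕ → GrAlg.{u, v} K → Prop
  | zero : IsPow B A 0 B
  | succ (n : ℕ) (P Q : GrAlg.{u, v} K) : IsPow B A n P → IsSymm Q → IsTensor P A Q →
      IsPow B A (n + 1) Q

/-- The class `C` is closed under tensor products. -/
def ClosedUnderTensor (C : Set (GrAlg.{u, v} K)) : Prop :=
  ∀ R ∈ C, ∀ S ∈ C, ∃ P ∈ C, IsTensor R S P

/-- Every algebra `R` in the class `C` has a linear form `l` with
`right(R, l) ≥ f(soc R) · dim R`. -/
def RightPart (C : Set (GrAlg.{u, v} K)) (f : ℕ → ℝ) : Prop :=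
  ∀ R ∈ C, ∃ l ∈ R.part 1, f R.soc * dim R ≤ right R l

end Pool.Agent.X306.LP
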