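import Pool.Agent.X306.LP.EDefs
import Pool.Agent.X306.LP.M
import Pool.Agent.X306.LP.CI
import Pool.Agent.Y163.MW.Gen

/-!
# The character of a linear form
-/

set_option autoImplicit false

open Module TensorProduct Filter Topology

universe u v

namespace Pool.Agent.X306.LP

open Pool.Agent.Y143 Pool.Agent.Y163.MW

theorem gap_nonneg {x : ℝ} (hx : 0 < x) (o : ℤ) : 0 ≤ x ^ o + x⁻¹ ^ o - 2 := by
  rw [inv_zpow]
  have hy : 0 < x ^ o := zpow_pos hx o
  have h1 : x ^ o + (x ^ o)⁻¹ - 2 = (x ^ o - 1) ^ 2 / x ^ o := by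
    field_simp
    ring
  rw [h1]
  positivity

theorem gap_mono {x y : ℝ} (hx : 1 < x) (hy : x ≤ y) : (x - 1) ^ 2 / x ≤ y + y⁻¹ - 2 := by
  have hx0 : 0 < x := by linarith
  have hy0 : 0 < y := by linarith
  have h1 : y + y⁻¹ - 2 = (y - 1) ^ 2 / y := by
    field_simp
    ring
  rw [h1, div_le_div_iff₀ hx0 hy0]
  have h2 : 1 ≤ x * y := by nlinarith
  nlinarith [mul_nonneg (sub_nonneg.2 hy) (sub_nonneg.2 h2)]

theorem gap_pos {x : ℝ} (hx : 1 < x) {o : ℤ} (ho : o ≠ 0) :
    (x - 1) ^ 2 / x ≤ x ^ o + x⁻¹ ^ o - 2 := by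
  rcases lt_or_gt_of_ne ho with h | h
  · have h1 : x ≤ x⁻¹ ^ o := by
      rw [inv_zpow']
      calc x = x ^ (1 : ℤ) := (zpow_one x).symm
        _ ≤ x ^ (-o) := zpow_le_zpow_right₀ hx.le (by omega)
    have h2 := gap_mono hx h1
    have h3 : (x⁻¹ ^ o)⁻¹ = x ^ o := by rw [inv_zpow, inv_inv]
    rw [h3] at h2
    linarith
  · have h1 : x ≤ x ^ o := by
      calc x = x ^ (1 : ℤ) := (zpow_one x).symm
        _ ≤ x ^ o := zpow_le_zpow_right₀ hx.le (by omega)
    have h2 := gap_mono hx h1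
    rw [inv_zpow]
    exact h2

/-- The character of a string. -/
noncomputable def sc (x : ℝ) (L : ℕ) : ℝ := ∑ j : Fin (L + 1), x ^ ((L : ℤ) - 2 * ((j : ℕ) : ℤ))

theorem sc_inv (x : ℝ) (L : ℕ) : sc x⁻¹ L = sc x L := by
  rw [sc, sc, ← Equiv.sum_comp Fin.revPerm]
  refine Finset.sum_congr rfl fun j _ => ?_
  have h1 : ((Fin.revPerm j : Fin (L + 1)) : ℕ) = L - j := by
    rw [Fin.revPerm_apply, Fin.val_rev]
    omega
  have h2 : (j : ℕ) ≤ L := by omega
  rw [h1, inv_zpow', Nat.cast_sub h2]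
  congr 1
  ring

theorem one_le_sc {x : ℝ} (hx : 0 < x) (L : ℕ) : 1 ≤ sc x L := by
  have h1 : 2 * sc x L = ∑ j : Fin (L + 1), (x ^ ((L : ℤ) - 2 * ((j : ℕ) : ℤ)) +
      x⁻¹ ^ ((L : ℤ) - 2 * ((j : ℕ) : ℤ))) := by
    rw [Finset.sum_add_distrib, two_mul]
    congr 1
    exact (sc_inv x L).symm
  have h2 : ∑ j : Fin (L + 1), (2 : ℝ) ≤ 2 * sc x L := by
    rw [h1]
    exact Finset.sum_le_sum fun j _ => by linarith [gap_nonneg hx ((L : ℤ) - 2 * ((j : ℕ) : ℤ))]
  rw [Finset.sum_const, Finset.card_univ, Fintype.card_fin, nsmul_eq_mul] at h2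
  push_cast at h2
  have h3 : (0 : ℝ) ≤ L := Nat.cast_nonneg L
  nlinarith

variable {K : Type u} [Field K] [CharZero K]

theorem jchar_eq {R : GrAlg.{u, v} K} {l : R.A} {I : Type} [Fintype I] {a : I → ℤ}
    {d : I → ℕ} (H : Adp R l a d) (x : ℝ) : jchar R l x = ∑ i, x ^ a i := by
  classical
  have hM := nilp H
  obtain ⟨b, e, h, hs, -⟩ := H
  have h1 := Pool.Agent.Y68.MW.stD Pool.Agent.Y141.MW.stL K R.A (mulBy R l) I b a e h hs _ hM
  have e1 : ∀ r : ℤ, finrank K (mon R l r) = (Finset.univ.filter fun i => a i ≤ r).card := by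
    intro r
    have e2 : Nat.card {i // a i ≤ r} = finrank K (monFil (mulBy R l) r) := by
      rw [h1 r, finrank_span_image]; rfl
    rw [mon, ← e2, Nat.card_eq_fintype_card, Fintype.card_subtype]
  have e3 : ∀ r : ℤ, wdim R l r = (Finset.univ.filter fun i => a i = r).card := by
    intro r
    have e4 : (Finset.univ.filter fun i => a i ≤ r).card =
        (Finset.univ.filter fun i => a i = r).card + (Finset.univ.filter fun i => a i ≤ r - 1).card := by
      rw [← Finset.card_union_of_disjoint]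
      · congr 1
        ext i
        simp only [Finset.mem_filter, Finset.mem_univ, true_and, Finset.mem_union]
        omega
      · rw [Finset.disjoint_filter]
        intro i _ h5 h6
        omega
    rw [wdim, e1, e1, e4]
    push_cast
    ring
  have e5 : ∀ k : ℤ, x ^ k * (wdim R l k : ℝ) =
      ∑ i ∈ Finset.univ.filter (fun i => a i = k), x ^ a i := by
    intro k
    rw [e3 k, Finset.sum_congr rfl (g := fun _ => x ^ k)
      (fun i hi => by rw [(Finset.mem_filter.1 hi).2]), Finset.sum_const, nsmul_eq_mul]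
    push_cast
    ring
  rw [jchar, finsum_congr e5, finsum_eq_sum_of_support_subset (s := Finset.univ.image a)]
  · exact Finset.sum_fiberwise_of_maps_to (fun i _ => Finset.mem_image_of_mem a (Finset.mem_univ i)) _
  · intro k hk
    by_contra h2
    refine hk ?_
    refine Finset.sum_eq_zero fun i hi => ?_
    exact absurd (Finset.mem_coe.2 ((Finset.mem_filter.1 hi).2 ▸
      Finset.mem_image_of_mem a (Finset.mem_univ i))) h2

theorem hchar_eq {R : GrAlg.{u, v} K} (hR : IsSymm R) {l : R.A} {I : Type} [Fintype I] {a : I → ℤ}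
    {d : I → ℕ} (H : Adp R l a d) (x : ℝ) : hchar R x = ∑ i, x ^ ((R.soc : ℤ) - 2 * d i) := by
  classical
  have hds := H.le_soc hR
  obtain ⟨b, e, h, hs, hb⟩ := H
  have h1 : ∀ s : ℕ, (Finset.univ.filter (fun i : I => d i = s)).card = finrank K (R.part s) := by
    intro s
    rw [finrank_gr hR.internal.submodule_iSupIndep b d hb s, Nat.card_eq_fintype_card,
      Fintype.card_subtype]
  rw [← Finset.sum_fiberwise_of_maps_to (s := Finset.univ) (t := Finset.range (R.soc + 1)) (g := d)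
    (fun i _ => Finset.mem_range.2 (by have := hds i; omega))]
  refine Finset.sum_congr rfl fun s _ => ?_
  rw [Finset.sum_congr rfl (g := fun _ => x ^ ((R.soc : ℤ) - 2 * s))
    (fun i hi => by rw [(Finset.mem_filter.1 hi).2]), Finset.sum_const, nsmul_eq_mul, h1 s, mul_comm]

theorem hchar_inv {R : GrAlg.{u, v} K} (hR : IsSymm R) (x : ℝ) : hchar R x⁻¹ = hchar R x := by
  rw [hchar, hchar, ← Finset.sum_range_reflect]
  refine Finset.sum_congr rfl fun i hi => ?_
  have hi' : i ≤ R.soc := by have := Finset.mem_range.1 hi; omega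
  have e1 : R.soc + 1 - 1 - i = R.soc - i := by omega
  rw [e1, ← hR.symm i hi', inv_zpow', Nat.cast_sub hi']
  congr 2
  ring

/-- The character of a linear form and the Hilbert series. -/
theorem char_gap {R : GrAlg.{u, v} K} (hR : IsSymm R) {l : R.A} (hl : l ∈ R.part 1) {x : ℝ}
    (hx : 1 < x) : 0 ≤ jchar R l x ∧ jchar R l x ≤ hchar R x ∧
      (IsLefschetz R l → jchar R l x = hchar R x) ∧
      (¬ IsLefschetz R l → jchar R l x + (x - 1) ^ 2 / (2 * x) ≤ hchar R x) := by
  classical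
  have hx0 : 0 < x := by linarith
  have := hR.finite
  obtain ⟨S⟩ := Pool.Agent.Y153.MW.stA K R.A (wt R) (mulBy R l) (internal_wt hR) (mul_wt hR hl)
  obtain ⟨e, h, hs⟩ := Pool.Agent.Y664.MW.t_B2 K R.A (wt R) (mulBy R l) S
  have hd : ∀ p : (Σ s : S.ι, Fin (S.len s + 1)), ∃ i : ℕ,
      (R.soc : ℤ) - 2 * i = S.wt p ∧ S.b p ∈ R.part i :=
    fun p => mem_wt (S.mem p.1 p.2) (S.b.ne_zero p)
  choose d hd1 hd2 using hd
  have H : Adp R l S.ct d := ⟨S.b, e, h, hs, hd2⟩
  have hJ : jchar R l x = ∑ s, sc x (S.len s) := by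
    rw [jchar_eq H, Fintype.sum_sigma]
    rfl
  have hH0 : ∀ y : ℝ, 0 < y → hchar R y = ∑ s, y ^ (S.top s - S.len s) * sc y (S.len s) := by
    intro y hy
    rw [hchar_eq hR H, Fintype.sum_sigma]
    refine Finset.sum_congr rfl fun s _ => ?_
    rw [sc, Finset.mul_sum]
    refine Finset.sum_congr rfl fun j _ => ?_
    rw [hd1, ← zpow_add₀ hy.ne', Strings.wt]
    congr 1
    ring
  have hH1 := hH0 x hx0
  have hH2 := hH0 x⁻¹ (inv_pos.2 hx0)
  rw [hchar_inv hR] at hH2
  have hsum : 2 * (hchar R x - jchar R l x) =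
      ∑ s, (x ^ (S.top s - S.len s) + x⁻¹ ^ (S.top s - S.len s) - 2) * sc x (S.len s) := by
    have h1 : ∀ s, (x ^ (S.top s - S.len s) + x⁻¹ ^ (S.top s - S.len s) - 2) * sc x (S.len s) =
        x ^ (S.top s - S.len s) * sc x (S.len s) + x⁻¹ ^ (S.top s - S.len s) * sc x⁻¹ (S.len s) -
          2 * sc x (S.len s) := by
      intro s
      rw [sc_inv]
      ring
    rw [Finset.sum_congr rfl fun s _ => h1 s, Finset.sum_sub_distrib, Finset.sum_add_distrib, ← hH1,
      ← hH2, ← Finset.mul_sum, ← hJ]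
    ring
  have hsc : ∀ s, 1 ≤ sc x (S.len s) := fun s => one_le_sc hx0 _
  have hnn : ∀ s, 0 ≤ (x ^ (S.top s - S.len s) + x⁻¹ ^ (S.top s - S.len s) - 2) * sc x (S.len s) :=
    fun s => mul_nonneg (gap_nonneg hx0 _) (by linarith [hsc s])
  refine ⟨?_, ?_, ?_, ?_⟩
  · rw [hJ]
    exact Finset.sum_nonneg fun s _ => by linarith [hsc s]
  · have h1 : 0 ≤ 2 * (hchar R x - jchar R l x) := by
      rw [hsum]
      exact Finset.sum_nonneg fun s _ => hnn s
    linarith
  · intro hL
    obtain ⟨J, _, a', d', H', -, h2⟩ := exists_adp hR hl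
    have h3 := h2 hL
    rw [jchar_eq H', hchar_eq hR H']
    exact Finset.sum_congr rfl fun j _ => by rw [h3 j]
  · intro hno
    have h1 : ∃ s, S.top s - S.len s ≠ 0 := by
      by_contra h2
      push_neg at h2
      refine hno (H.lefschetz hR hl fun p => ?_)
      rw [hd1 p, Strings.wt, Strings.ct]
      have := h2 p.1
      omega
    obtain ⟨s, h2⟩ := h1
    have h3 : (x - 1) ^ 2 / x ≤ 2 * (hchar R x - jchar R l x) := by
      rw [hsum]
      refine le_trans ?_ (Finset.single_le_sum (fun t _ => hnn t) (Finset.mem_univ s))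
      have h4 := gap_pos hx h2
      have h5 : 0 ≤ (x - 1) ^ 2 / x := by positivity
      nlinarith [hsc s]
    have h6 : (x - 1) ^ 2 / (2 * x) = (x - 1) ^ 2 / x / 2 := by
      rw [mul_comm, div_div]
    rw [h6]
    linarith

/-- The law for one tensor product. -/
theorem tensor_char {R S P : GrAlg.{u, v} K} (hR : IsSymm R) (hS : IsSymm S) (hP : IsSymm P)
    (hT : IsTensor R S P) {L : P.A} (hL : L ∈ P.part 1) {x : ℝ} (hx : x ≠ 0) :
    ∃ l ∈ R.part 1, ∃ l' ∈ S.part 1,
      jchar P L x = jchar R l x * jchar S l' x ∧ hchar P x = hchar R x * hchar S x := by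
  classical
  obtain ⟨hsoc, κ, hκ⟩ := hT
  obtain ⟨l, hl, l', hl', rfl⟩ := exists_forms hR hS hP κ hκ hL
  obtain ⟨I, _, a, d, H, -⟩ := exists_adp hR hl
  obtain ⟨J, _, a', d', H', -⟩ := exists_adp hS hl'
  have H2 := H.prod H' κ hκ
  refine ⟨l, hl, l', hl', ?_, ?_⟩
  · rw [jchar_eq H2, jchar_eq H, jchar_eq H', Fintype.sum_prod_type, Finset.sum_mul_sum]
    exact Finset.sum_congr rfl fun i _ => Finset.sum_congr rfl fun j _ => zpow_add₀ hx _ _
  · rw [hchar_eq hP H2, hchar_eq hR H, hchar_eq hS H', Fintype.sum_prod_type, Finset.sum_mul_sum]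
    refine Finset.sum_congr rfl fun i _ => Finset.sum_congr rfl fun j _ => ?_
    rw [← zpow_add₀ hx, hsoc]
    congr 1
    push_cast
    ring

/-- The bound for the tensor powers. -/
theorem pow_char {A B : GrAlg.{u, v} K} (hA : IsSymm A) (hB : IsSymm B) (hno : ¬ HasSLP A) {n : ℕ}
    {P : GrAlg.{u, v} K} (hP : IsPow B A n P) {x : ℝ} (hx : 1 < x) :
    IsSymm P ∧ ∀ L ∈ P.part 1,
      jchar P L x ≤ (1 - (x - 1) ^ 2 / (2 * x * hchar A x)) ^ n * hchar P x := by
  have hx0 : 0 < x := by linarith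
  have hg : 0 < (x - 1) ^ 2 / (2 * x) := by
    have : 0 < x - 1 := by linarith
    positivity
  have hfac : ∀ l' ∈ A.part 1, jchar A l' x ≤ (1 - (x - 1) ^ 2 / (2 * x * hchar A x)) * hchar A x ∧
      0 ≤ jchar A l' x ∧ 0 < hchar A x := by
    intro l' hl'
    obtain ⟨h1, -, -, h2⟩ := char_gap hA hl' hx
    have h3 := h2 fun h => hno ⟨l', h⟩
    have h4 : 0 < hchar A x := by linarith
    refine ⟨?_, h1, h4⟩
    have h5 : (1 - (x - 1) ^ 2 / (2 * x * hchar A x)) * hchar A x =
        hchar A x - (x - 1) ^ 2 / (2 * x) := by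
      field_simp
    rw [h5]
    linarith
  induction hP with
  | zero =>
    refine ⟨hB, fun L hL => ?_⟩
    rw [pow_zero, one_mul]
    exact (char_gap hB hL hx).2.1
  | succ n P Q hPn hQ hT ih =>
    obtain ⟨hPs, ih⟩ := ih
    refine ⟨hQ, fun L hL => ?_⟩
    obtain ⟨l, hl, l', hl', h1, h2⟩ := tensor_char hPs hA hQ hT hL hx0.ne'
    obtain ⟨h3, h4, h5⟩ := hfac l' hl'
    obtain ⟨h6, h7, -⟩ := char_gap hPs hl hx
    have h8 := mul_le_mul (ih l hl) h3 h4 (h6.trans (ih l hl))
    rw [h1, h2]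
    refine h8.trans (le_of_eq ?_)
    ring

/-- The criterion for classes. -/
theorem exp_iff {C : Set (GrAlg.{u, v} K)} (hC : ∀ R ∈ C, IsSymm R) (ht : ClosedUnderTensor C)
    {x : ℝ} (hx : 1 < x) : ExpCriterion C x := by
  have hx0 : 0 < x := by linarith
  constructor
  · intro h
    refine ⟨fun _ => 0, by simp, fun R hR => ?_⟩
    obtain ⟨l, hl⟩ := h R hR
    refine ⟨l, hl.1, ?_⟩
    rw [((char_gap (hC R hR) hl.1 hx).2.2.1 hl), neg_zero, Real.exp_zero, one_mul]
  · rintro ⟨g, hg, hr⟩ A hA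
    by_contra hno
    have hAs := hC A hA
    have hs := soc_pos hAs hno
    have hA0 : 0 < hchar A x := by
      obtain ⟨h1, -, -, h2⟩ := char_gap hAs (zero_mem (A.part 1)) hx
      have h3 := h2 fun h => hno ⟨0, h⟩
      have h4 : 0 < (x - 1) ^ 2 / (2 * x) := by
        have : 0 < x - 1 := by linarith
        positivity
      linarith
    have hγ : 0 < (x - 1) ^ 2 / (2 * x * hchar A x) := by
      have : 0 < x - 1 := by linarith
      positivity
    have h1 : Tendsto (fun n : ℕ => (n + 1) * A.soc) atTop atTop :=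
      tendsto_atTop_mono (fun n => (Nat.le_succ n).trans (Nat.le_mul_of_pos_right _ hs)) tendsto_id
    have hs' : (0 : ℝ) < A.soc := by exact_mod_cast hs
    obtain ⟨n, hn, hn1⟩ := (((hg.comp h1).eventually_lt_const
      (by positivity : (0 : ℝ) < (x - 1) ^ 2 / (2 * x * hchar A x) / (2 * A.soc))).and
      (eventually_ge_atTop 1)).exists
    obtain ⟨P, hP, hPn⟩ := exists_pow_mem hC ht hA n
    obtain ⟨hPs, hsoc, -⟩ := exists_pow hAs hAs hno hPn
    obtain ⟨-, hd⟩ := pow_char hAs hAs hno hPn hx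
    obtain ⟨l, hl, hle⟩ := hr P hP
    have h5 : P.soc = (n + 1) * A.soc := by rw [hsoc]; ring
    rw [h5] at hle
    have hP0 : 0 < hchar P x := by
      have := hPs.nontrivial
      have := hPs.finite
      rw [hchar]
      refine Finset.sum_pos' (fun i _ => by positivity) ⟨0, by simp, ?_⟩
      rw [hPs.conn]
      have h6 : finrank K (Submodule.span K {(1 : P.A)}) = 1 := finrank_span_singleton one_ne_zero
      rw [h6]
      positivity
    have h6 := le_of_mul_le_mul_right (hle.trans (hd l hl)) hP0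
    have h7 : (1 - (x - 1) ^ 2 / (2 * x * hchar A x)) ^ n ≤
        Real.exp (-((x - 1) ^ 2 / (2 * x * hchar A x) * n)) := by
      have h8 : 0 ≤ 1 - (x - 1) ^ 2 / (2 * x * hchar A x) := by
        obtain ⟨h1, -, -, h2⟩ := char_gap hAs (zero_mem (A.part 1)) hx
        have h3 := h2 fun h => hno ⟨0, h⟩
        rw [sub_nonneg, ← div_div, div_le_one hA0]
        linarith
      have h9 := Real.add_one_le_exp (-((x - 1) ^ 2 / (2 * x * hchar A x)))
      calc (1 - (x - 1) ^ 2 / (2 * x * hchar A x)) ^ n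
          ≤ (Real.exp (-((x - 1) ^ 2 / (2 * x * hchar A x)))) ^ n :=
            pow_le_pow_left₀ h8 (by linarith) n
        _ = Real.exp (-((x - 1) ^ 2 / (2 * x * hchar A x) * n)) := by
            rw [← Real.exp_nat_mul]
            congr 1
            ring
    have h10 := Real.exp_le_exp.1 (h6.trans h7)
    have h11 : (x - 1) ^ 2 / (2 * x * hchar A x) * n ≤ g ((n + 1) * A.soc) := by linarith
    have h12 : g ((n + 1) * A.soc) / (((n + 1) * A.soc : ℕ) : ℝ) <
        (x - 1) ^ 2 / (2 * x * hchar A x) / (2 * A.soc) := hn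
    have h13 : (0 : ℝ) < (((n + 1) * A.soc : ℕ) : ℝ) := by positivity
    rw [div_lt_iff₀ h13] at h12
    have h14 : (x - 1) ^ 2 / (2 * x * hchar A x) / (2 * A.soc) * (((n + 1) * A.soc : ℕ) : ℝ) =
        (x - 1) ^ 2 / (2 * x * hchar A x) * ((n + 1) / 2) := by
      push_cast
      field_simp
    rw [h14] at h12
    have h15 : (1 : ℝ) ≤ n := by exact_mod_cast hn1
    have h16 := lt_of_le_of_lt h11 h12
    have h17 := lt_of_mul_lt_mul_left h16 hγ.le
    linarith

end Pool.Agent.X306.LP
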