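import Pool.Agent.X306.LP.WDefs

/-!
# The characters of a graded algebra and of a linear form: definitions
-/

set_option autoImplicit false

open Module

universe u v

namespace Pool.Agent.X306.LP

variable {K : Type u} [Field K]

/-- The dimension of `M_k / M_(k - 1)`, where `M` is the monodromy filtration of the multiplication
by `l`. -/
noncomputable def wdim (R : GrAlg.{u, v} K) (l : R.A) (k : ℤ) : ℤ :=
  (finrank K (mon R l k) : ℤ) - finrank K (mon R l (k - 1))

/-- The number `∑ dim (M_k / M_(k - 1)) · x ^ k` (the sum over all integers `k`). Equivalently, the sum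
of `x ^ (L - 1) + x ^ (L - 3) + ... + x ^ (1 - L)` over the Jordan blocks of the multiplication by `l`,
where `L` is the length of the block. -/
noncomputable def jchar (R : GrAlg.{u, v} K) (l : R.A) (x : ℝ) : ℝ :=
  ∑ᶠ k : ℤ, x ^ k * (wdim R l k : ℝ)

/-- The number `∑ dim R_i · x ^ (s - 2 i)`, `s = soc R`. -/
noncomputable def hchar (R : GrAlg.{u, v} K) (x : ℝ) : ℝ :=
  ∑ i ∈ Finset.range (R.soc + 1), x ^ ((R.soc : ℤ) - 2 * i) * (finrank K (R.part i) : ℝ)

/-- Every algebra `R` in the class `C` has a linear form `l` with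
`jchar(R, l, x) ≥ exp(- h(soc R)) · hchar(R, x)`. -/
def ExpPart (C : Set (GrAlg.{u, v} K)) (x : ℝ) (h : ℕ → ℝ) : Prop :=
  ∀ R ∈ C, ∃ l ∈ R.part 1, Real.exp (-h R.soc) * hchar R x ≤ jchar R l x

/-- All the algebras in `C` have the strong Lefschetz property if and only if for some function `h`
with `h(s) / s → 0` every `R` in `C` has a linear form `l` with
`jchar(R, l, x) ≥ exp(- h(soc R)) · hchar(R, x)`. -/
def ExpCriterion (C : Set (GrAlg.{u, v} K)) (x : ℝ) : Prop :=
  (∀ R ∈ C, HasSLP R) ↔ ∃ h : ℕ → ℝ,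
    Filter.Tendsto (fun s : ℕ => h s / (s : ℝ)) Filter.atTop (nhds 0) ∧ ExpPart C x h

end Pool.Agent.X306.LP
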