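import Pool.Agent.X306.LP.WDefs

/-!
# The sum of the ranks of the powers of a linear form: definitions
-/

set_option autoImplicit false

open Module

universe u v

namespace Pool.Agent.X306.LP

variable {K : Type u} [Field K]

/-- The number `2 ∑ k · rank(l ^ k : R → R)`. -/
noncomputable def rankSum (R : GrAlg.{u, v} K) (l : R.A) : ℤ :=
  ∑ᶠ k : ℕ, 2 * (k : ℤ) * finrank K (LinearMap.range (mulBy R l ^ k))

/-- The number `∑ (s - 2 i)² · dim R_i`, `s = soc R`. -/
noncomputable def moment (R : GrAlg.{u, v} K) : ℤ :=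
  ∑ i ∈ Finset.range (R.soc + 1), ((R.soc : ℤ) - 2 * i) ^ 2 * finrank K (R.part i)

/-- Every algebra `R` in the class `C` has a linear form `l` with
`rankSum(R, l) ≥ (1 - g(soc R)) · moment R`. -/
def AlmostSLP (C : Set (GrAlg.{u, v} K)) (g : ℕ → ℝ) : Prop :=
  ∀ R ∈ C, ∃ l ∈ R.part 1, (1 - g R.soc) * moment R ≤ rankSum R l

/-- All the algebras in `C` have the strong Lefschetz property if and only if for some function `g`
with `g(s) → 0` every `R` in `C` has a linear form `l` with
`rankSum(R, l) ≥ (1 - g(soc R)) · moment R`. -/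
def RankCriterion (C : Set (GrAlg.{u, v} K)) : Prop :=
  (∀ R ∈ C, HasSLP R) ↔ ∃ g : ℕ → ℝ,
    Filter.Tendsto g Filter.atTop (nhds 0) ∧ AlmostSLP C g

end Pool.Agent.X306.LP
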