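import Pool.Agent.X306.LP.A

/-!
# Tensor products
-/

set_option autoImplicit false

open Module TensorProduct

universe u v

namespace Pool.Agent.X306.LP

open Pool.Agent.Y143 Pool.Agent.Y163.MW

variable {K : Type u} [Field K] [CharZero K] {R S P : GrAlg.{u, v} K}

/-- Linear forms of a tensor product. -/
theorem exists_forms (hR : IsSymm R) (hS : IsSymm S) (hP : IsSymm P)
    (κ : R.A ⊗[K] S.A ≃ₐ[K] P.A)
    (hκ : ∀ (i j : ℕ) (x : R.A) (y : S.A), x ∈ R.part i → y ∈ S.part j → κ (x ⊗ₜ y) ∈ P.part (i + j))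
    {L : P.A} (hL : L ∈ P.part 1) :
    ∃ l ∈ R.part 1, ∃ l' ∈ S.part 1, L = κ (l ⊗ₜ 1 + 1 ⊗ₜ l') := by
  classical
  obtain ⟨I, _, a, d, ⟨b, e, h, -, hb⟩, -, -⟩ := exists_adp hR (zero_mem (R.part 1))
  obtain ⟨I', _, a', d', ⟨b', e', h', -, hb'⟩, -, -⟩ := exists_adp hS (zero_mem (S.part 1))
  have h1 := gr_eq_span hP.internal.submodule_iSupIndep ((b.tensorProduct b').map κ.toLinearEquiv)
    (fun p : I × I' => d p.1 + d' p.2) (fun p => by
      rw [Basis.map_apply, Basis.tensorProduct_apply]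
      exact hκ _ _ _ _ (hb p.1) (hb' p.2)) 1
  set T1 : R.A →ₗ[K] P.A := κ.toLinearEquiv.toLinearMap ∘ₗ (TensorProduct.mk K R.A S.A).flip 1 with hT1
  set T2 : S.A →ₗ[K] P.A := κ.toLinearEquiv.toLinearMap ∘ₗ (TensorProduct.mk K R.A S.A) 1 with hT2
  have h2 : P.part 1 ≤ (R.part 1).map T1 ⊔ (S.part 1).map T2 := by
    rw [h1, Submodule.span_le]
    rintro _ ⟨⟨p, q⟩, hpq, rfl⟩
    have hpq' : d p + d' q = 1 := hpq
    rw [Basis.map_apply, Basis.tensorProduct_apply]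
    rcases Nat.eq_zero_or_pos (d p) with h3 | h3
    · have h4 := hb p
      rw [h3, hR.conn] at h4
      obtain ⟨c, hc⟩ := Submodule.mem_span_singleton.1 h4
      refine Submodule.mem_sup_right ⟨c • b' q, Submodule.smul_mem _ _ ?_, ?_⟩
      · have h5 := hb' q
        rwa [show d' q = 1 by omega] at h5
      · show κ ((1 : R.A) ⊗ₜ (c • b' q)) = κ (b p ⊗ₜ b' q)
        rw [← hc, TensorProduct.tmul_smul, TensorProduct.smul_tmul']
    · have h4 := hb' q
      rw [show d' q = 0 by omega, hS.conn] at h4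
      obtain ⟨c, hc⟩ := Submodule.mem_span_singleton.1 h4
      refine Submodule.mem_sup_left ⟨c • b p, Submodule.smul_mem _ _ ?_, ?_⟩
      · have h5 := hb p
        rwa [show d p = 1 by omega] at h5
      · show κ ((c • b p) ⊗ₜ (1 : S.A)) = κ (b p ⊗ₜ b' q)
        rw [← hc, TensorProduct.tmul_smul, TensorProduct.smul_tmul']
  obtain ⟨_, ⟨l, hl, rfl⟩, _, ⟨l', hl', rfl⟩, h3⟩ := Submodule.mem_sup.1 (h2 hL)
  exact ⟨l, hl, l', hl', by rw [← h3, map_add]; rfl⟩

/-- Adapted bases of tensor products. -/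
theorem Adp.prod {l : R.A} {l' : S.A} {I J : Type} {a : I → ℤ} {d : I → ℕ} {a' : J → ℤ} {d' : J → ℕ}
    (H : Adp R l a d) (H' : Adp S l' a' d') (κ : R.A ⊗[K] S.A ≃ₐ[K] P.A)
    (hκ : ∀ (i j : ℕ) (x : R.A) (y : S.A), x ∈ R.part i → y ∈ S.part j → κ (x ⊗ₜ y) ∈ P.part (i + j)) :
    Adp P (κ (l ⊗ₜ 1 + 1 ⊗ₜ l')) (fun p : I × J => a p.1 + a' p.2)
      (fun p : I × J => d p.1 + d' p.2) := by
  obtain ⟨b, e, h, hs, hb⟩ := H
  obtain ⟨b', e', h', hs', hb'⟩ := H'
  have h1 := Pool.Agent.Y210.MW.t_B3 K R.A S.A (mulBy R l) I b a e h (mulBy S l') J b' a' e' h' hs hs'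
  have h2 := h1.map κ.toLinearEquiv (N' := mulBy P (κ (l ⊗ₜ 1 + 1 ⊗ₜ l'))) (fun x => by
    show κ (l ⊗ₜ 1 + 1 ⊗ₜ l') * κ x = κ _
    rw [← map_mul]
    congr 1
    induction x using TensorProduct.induction_on with
    | zero => simp
    | tmul x y =>
      rw [add_mul, Algebra.TensorProduct.tmul_mul_tmul, Algebra.TensorProduct.tmul_mul_tmul, one_mul,
        one_mul, LinearMap.add_apply, TensorProduct.map_tmul, TensorProduct.map_tmul]
      rfl
    | add x y hx hy => rw [mul_add, hx, hy, map_add])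
  refine ⟨_, _, _, h2, fun p => ?_⟩
  rw [Basis.map_apply, Basis.tensorProduct_apply]
  exact hκ _ _ _ _ (hb p.1) (hb' p.2)

/-- Adapted bases of the tensor powers. -/
theorem exists_pow {A B : GrAlg.{u, v} K} (hA : IsSymm A) (hB : IsSymm B) (hno : ¬ HasSLP A)
    {n : ℕ} {P : GrAlg.{u, v} K} (hP : IsPow B A n P) :
    IsSymm P ∧ P.soc = B.soc + n * A.soc ∧ ∀ L ∈ P.part 1,
    ∃ (J : Type) (_ : Fintype J) (η : J → ℤ) (δ : Fin n → Fin (dim A) → ℤ)
      (a : J × (Fin n → Fin (dim A)) → ℤ) (d : J × (Fin n → Fin (dim A)) → ℕ),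
      Adp P L a d ∧ (∀ k, ∃ i j, δ k i ≠ δ k j) ∧
      ∀ p, (P.soc : ℤ) - 2 * d p - a p = η p.1 + ∑ k, δ k (p.2 k) := by
  classical
  induction hP with
  | zero =>
    refine ⟨hB, by simp, fun L hL => ?_⟩
    obtain ⟨J, _, a, d, H, -, -⟩ := exists_adp hB hL
    refine ⟨J, inferInstance, fun j => (B.soc : ℤ) - 2 * d j - a j, fun k => k.elim0,
      fun p => a p.1, fun p => d p.1, ?_, fun k => k.elim0, fun p => ?_⟩
    · exact H.reindex (Equiv.prodUnique J (Fin 0 → Fin (dim A))).symm _ _ (fun _ => rfl) (fun _ => rfl)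
    · simp
  | succ n P Q hPn hQ hT ih =>
    obtain ⟨hP, hsoc, ih⟩ := ih
    obtain ⟨hs, κ, hκ⟩ := hT
    refine ⟨hQ, by rw [hs, hsoc]; ring, fun L hL => ?_⟩
    obtain ⟨l, hl, l', hl', rfl⟩ := exists_forms hP hA hQ κ hκ hL
    obtain ⟨J, _, η, δ, a, d, H, hδ, hp⟩ := ih l hl
    obtain ⟨I, _, a', d', H', hsum, -⟩ := exists_adp hA hl'
    have hcard : Fintype.card I = dim A := H'.dim_eq.symm
    set E : I ≃ Fin (dim A) := Fintype.equivFinOfCardEq hcard with hE
    have hne : ∃ i j, ((A.soc : ℤ) - 2 * d' i - a' i) ≠ (A.soc : ℤ) - 2 * d' j - a' j := by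
      by_contra hcon
      push Not at hcon
      have h0 : ∀ i, (A.soc : ℤ) - 2 * d' i - a' i = 0 := by
        intro i
        have h1 : ∑ j, ((A.soc : ℤ) - 2 * d' j - a' j) = 0 := by
          rw [Finset.sum_sub_distrib, H'.sum_deg hA, hsum, sub_zero]
        rw [Finset.sum_congr rfl fun j _ => hcon j i, Finset.sum_const, Finset.card_univ,
          nsmul_eq_mul] at h1
        rcases mul_eq_zero.1 h1 with h2 | h2
        · have : 0 < Fintype.card I := Fintype.card_pos_iff.2 ⟨i⟩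
          omega
        · exact h2
      exact hno ⟨l', H'.lefschetz hA hl' fun i => by have := h0 i; omega⟩
    obtain ⟨i0, j0, hij⟩ := hne
    have H2 := H.prod H' κ hκ
    let F : (J × (Fin n → Fin (dim A))) × I ≃ J × (Fin (n + 1) → Fin (dim A)) :=
      (Equiv.prodAssoc J (Fin n → Fin (dim A)) I).trans (Equiv.prodCongr (Equiv.refl J)
        ((Equiv.prodComm _ _).trans ((Equiv.prodCongr E (Equiv.refl _)).trans
          (Fin.consEquiv (fun _ => Fin (dim A))))))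
    refine ⟨J, inferInstance, η,
      Fin.cons (fun i => (A.soc : ℤ) - 2 * d' (E.symm i) - a' (E.symm i)) δ,
      fun p => (fun q : (J × (Fin n → Fin (dim A))) × I => a q.1 + a' q.2) (F.symm p),
      fun p => (fun q : (J × (Fin n → Fin (dim A))) × I => d q.1 + d' q.2) (F.symm p),
      H2.reindex F _ _ (fun _ => rfl) (fun _ => rfl), fun k => ?_, fun p => ?_⟩
    · refine Fin.cases ?_ (fun k => ?_) k
      · refine ⟨E i0, E j0, ?_⟩
        rw [Fin.cons_zero, Equiv.symm_apply_apply, Equiv.symm_apply_apply]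
        exact hij
      · rw [Fin.cons_succ]
        exact hδ k
    · obtain ⟨q, rfl⟩ := F.surjective p
      simp only [Equiv.symm_apply_apply]
      obtain ⟨⟨j, g⟩, i⟩ := q
      have h1 := hp (j, g)
      have h2 : (F ((j, g), i)) = (j, Fin.cons (E i) g) := rfl
      rw [h2]
      show (Q.soc : ℤ) - 2 * ((d (j, g) + d' i : ℕ) : ℤ) - (a (j, g) + a' i) =
        η j + ∑ k, (Fin.cons (fun i => (A.soc : ℤ) - 2 * d' (E.symm i) - a' (E.symm i)) δ :
          Fin (n + 1) → Fin (dim A) → ℤ) k ((Fin.cons (E i) g : Fin (n + 1) → Fin (dim A)) k)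
      rw [Fin.sum_univ_succ, Fin.cons_zero, Fin.cons_zero, Equiv.symm_apply_apply, hs]
      simp only [Fin.cons_succ]
      have h3 : η j + ∑ k, δ k (g k) = (P.soc : ℤ) - 2 * d (j, g) - a (j, g) := h1.symm
      push_cast
      omega

end Pool.Agent.X306.LP
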