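import Pool.Agent.X306.LP.WDefs
import Pool.Agent.X306.LP.A

/-!
# Tensor products of graded algebras with symmetric Hilbert function
-/

set_option autoImplicit false

open Module TensorProduct

universe u v

namespace Pool.Agent.X306.LP

open Pool.Agent.Y143 Pool.Agent.Y163.MW

variable {K : Type u} [Field K] {R S : GrAlg.{u, v} K}

theorem internal_of_basis {V : Type v} [AddCommGroup V] [Module K V] {I : Type} (b : Basis I K V)
    (w : I → ℕ) {gr : ℕ → Submodule K V} (h : ∀ k, gr k = Submodule.span K (b '' {i | w i = k})) :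
    DirectSum.IsInternal gr := by
  have h1 : ∀ k, gr k = ⨆ (i : I) (_ : w i = k), Submodule.span K {b i} := by
    intro k
    rw [h k, Submodule.span_eq_iSup_of_singleton_spans]
    apply le_antisymm
    · refine iSup₂_le ?_
      rintro _ ⟨i, hi, rfl⟩
      exact le_iSup₂_of_le i hi le_rfl
    · refine iSup₂_le fun i hi => ?_
      exact le_iSup₂_of_le (b i) ⟨i, hi, rfl⟩ le_rfl
  have h2 : gr = fun k => ⨆ (i : I) (_ : w i = k), Submodule.span K {b i} := funext h1
  rw [h2, DirectSum.isInternal_submodule_iff_iSupIndep_and_iSup_eq_top]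
  refine ⟨iSupIndep_fib b.linearIndependent.iSupIndep_span_singleton w, ?_⟩
  rw [iSup_fib (fun i => Submodule.span K {b i}) w, ← Submodule.span_range_eq_iSup, b.span_eq]

/-- A homogeneous basis. -/
def HB (R : GrAlg.{u, v} K) {I : Type} (b : Basis I K R.A) (d : I → ℕ) : Prop :=
  ∀ i, b i ∈ R.part (d i)

theorem tensor_part_eq (hR : IsSymm R) (hS : IsSymm S) {I J : Type} [Finite I] [Finite J]
    {b : Basis I K R.A} {d : I → ℕ}
    {b' : Basis J K S.A} {d' : J → ℕ} (hb : HB R b d) (hb' : HB S b' d') (k : ℕ) :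
    tpart R S k = Submodule.span K ((b.tensorProduct b') '' {p | d p.1 + d' p.2 = k}) := by
  apply le_antisymm
  · refine Submodule.span_le.2 ?_
    rintro _ ⟨i, j, x, y, hij, hx, hy, rfl⟩
    have h := Submodule.apply_mem_map₂ (TensorProduct.mk K R.A S.A) hx hy
    rw [gr_eq_span hR.internal.submodule_iSupIndep b d hb i,
      gr_eq_span hS.internal.submodule_iSupIndep b' d' hb' j, Submodule.map₂_span_span] at h
    refine Submodule.span_mono ?_ h
    rintro _ ⟨_, ⟨p, hp, rfl⟩, _, ⟨q, hq, rfl⟩, rfl⟩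
    refine ⟨(p, q), ?_, ?_⟩
    · show d p + d' q = k
      rw [show d p = i from hp, show d' q = j from hq, hij]
    · rw [Basis.tensorProduct_apply]
      rfl
  · rw [Submodule.span_le]
    rintro _ ⟨⟨p, q⟩, hpq, rfl⟩
    have h1 : d p + d' q = k := hpq
    rw [Basis.tensorProduct_apply]
    exact Submodule.subset_span ⟨d p, d' q, b p, b' q, h1, hb p, hb' q, rfl⟩

/-- Reflection of the degrees. -/
theorem sum_reflect (hR : IsSymm R) {I : Type} [Fintype I] {b : Basis I K R.A} {d : I → ℕ}
    (hb : HB R b d) (φ : ℕ → ℕ) : ∑ i, φ (d i) = ∑ i, φ (R.soc - d i) := by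
  classical
  have hds : ∀ i, d i ≤ R.soc := by
    intro i
    by_contra h
    have h1 := hb i
    rw [hR.zero _ (by omega)] at h1
    exact b.ne_zero i ((Submodule.mem_bot K).1 h1)
  have h1 : ∀ s : ℕ, (Finset.univ.filter (fun i : I => d i = s)).card = finrank K (R.part s) := by
    intro s
    rw [finrank_gr hR.internal.submodule_iSupIndep b d hb s, Nat.card_eq_fintype_card,
      Fintype.card_subtype]
  have h2 : ∀ ψ : ℕ → ℕ, ∑ i, ψ (d i) =
      ∑ s ∈ Finset.range (R.soc + 1), finrank K (R.part s) * ψ s := by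
    intro ψ
    rw [← Finset.sum_fiberwise_of_maps_to (s := Finset.univ) (t := Finset.range (R.soc + 1)) (g := d)
      (fun i _ => Finset.mem_range.2 (by have := hds i; omega))]
    refine Finset.sum_congr rfl fun s _ => ?_
    rw [Finset.sum_congr rfl (g := fun _ => ψ s)
      (fun i hi => by rw [(Finset.mem_filter.1 hi).2]), Finset.sum_const, smul_eq_mul, h1 s]
  rw [h2 φ, h2 (fun s => φ (R.soc - s)),
    ← Finset.sum_range_reflect (fun s => finrank K (R.part s) * φ s) (R.soc + 1)]
  refine Finset.sum_congr rfl fun s hs => ?_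
  have h5 : s ≤ R.soc := by have := Finset.mem_range.1 hs; omega
  rw [Nat.add_sub_cancel, ← hR.symm s h5]

theorem tpart_mem {i j k : ℕ} (hij : i + j = k) {x : R.A} {y : S.A} (hx : x ∈ R.part i)
    (hy : y ∈ S.part j) : x ⊗ₜ[K] y ∈ tpart R S k :=
  Submodule.subset_span ⟨i, j, x, y, hij, hx, hy, rfl⟩

theorem tpart_mul (hR : IsSymm R) (hS : IsSymm S) {I J : Type} [Finite I] [Finite J]
    {b : Basis I K R.A} {d : I → ℕ}
    {b' : Basis J K S.A} {d' : J → ℕ} (hb : HB R b d) (hb' : HB S b' d') (i j : ℕ)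
    (x y : R.A ⊗[K] S.A) (hx : x ∈ tpart R S i) (hy : y ∈ tpart R S j) :
    x * y ∈ tpart R S (i + j) := by
  rw [tensor_part_eq hR hS hb hb'] at hx hy
  induction hx using Submodule.span_induction with
  | mem x hx =>
    induction hy using Submodule.span_induction with
    | mem y hy =>
      obtain ⟨⟨p, q⟩, hpq, rfl⟩ := hx
      obtain ⟨⟨p', q'⟩, hpq', rfl⟩ := hy
      have h1 : d p + d' q = i := hpq
      have h2 : d p' + d' q' = j := hpq'
      rw [Basis.tensorProduct_apply, Basis.tensorProduct_apply, Algebra.TensorProduct.tmul_mul_tmul]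
      exact tpart_mem (by omega) (hR.mul _ _ _ _ (hb p) (hb p')) (hS.mul _ _ _ _ (hb' q) (hb' q'))
    | zero => rw [mul_zero]; exact zero_mem _
    | add y z _ _ hy hz => rw [mul_add]; exact add_mem hy hz
    | smul c y _ hy => rw [mul_smul_comm]; exact Submodule.smul_mem _ _ hy
  | zero => rw [zero_mul]; exact zero_mem _
  | add x z _ _ hx hz => rw [add_mul]; exact add_mem hx hz
  | smul c x _ hx => rw [smul_mul_assoc]; exact Submodule.smul_mem _ _ hx

theorem tpart_conn (hR : IsSymm R) (hS : IsSymm S) : tpart R S 0 = Submodule.span K {1} := by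
  apply le_antisymm
  · refine Submodule.span_le.2 ?_
    rintro _ ⟨i, j, x, y, hij, hx, hy, rfl⟩
    obtain ⟨rfl, rfl⟩ : i = 0 ∧ j = 0 := by omega
    rw [hR.conn] at hx
    rw [hS.conn] at hy
    obtain ⟨c, rfl⟩ := Submodule.mem_span_singleton.1 hx
    obtain ⟨c', rfl⟩ := Submodule.mem_span_singleton.1 hy
    rw [TensorProduct.tmul_smul, ← TensorProduct.smul_tmul']
    exact Submodule.smul_mem _ _ (Submodule.smul_mem _ _ (Submodule.mem_span_singleton_self _))
  · rw [Submodule.span_le, Set.singleton_subset_iff]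
    have h : (1 : R.A) ⊗ₜ[K] (1 : S.A) ∈ tpart R S 0 := by
      refine tpart_mem (i := 0) (j := 0) rfl ?_ ?_
      · rw [hR.conn]; exact Submodule.mem_span_singleton_self _
      · rw [hS.conn]; exact Submodule.mem_span_singleton_self _
    exact h

theorem tpart_zero (hR : IsSymm R) (hS : IsSymm S) (k : ℕ) (hk : R.soc + S.soc < k) :
    tpart R S k = ⊥ := by
  rw [eq_bot_iff]
  refine Submodule.span_le.2 ?_
  rintro _ ⟨i, j, x, y, hij, hx, hy, rfl⟩
  rcases Nat.lt_or_ge R.soc i with h1 | h1
  · rw [hR.zero i h1, Submodule.mem_bot] at hx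
    rw [hx, TensorProduct.zero_tmul]
    exact zero_mem _
  · rw [hS.zero j (by omega), Submodule.mem_bot] at hy
    rw [hy, TensorProduct.tmul_zero]
    exact zero_mem _

theorem deg_le (hR : IsSymm R) {I : Type} {b : Basis I K R.A} {d : I → ℕ} (hb : HB R b d) (i : I) :
    d i ≤ R.soc := by
  by_contra h
  have h1 := hb i
  rw [hR.zero _ (by omega)] at h1
  exact b.ne_zero i ((Submodule.mem_bot K).1 h1)

theorem tpart_symm (hR : IsSymm R) (hS : IsSymm S) {I I' : Type} [Fintype I] [Fintype I']
    {b : Basis I K R.A} {d : I → ℕ}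
    {b' : Basis I' K S.A} {d' : I' → ℕ} (hb : HB R b d) (hb' : HB S b' d')
    (hint : DirectSum.IsInternal (tpart R S)) (k : ℕ) (hk : k ≤ R.soc + S.soc) :
    finrank K (tpart R S k) = finrank K (tpart R S (R.soc + S.soc - k)) := by
  classical
  have hcount : ∀ k : ℕ, finrank K (tpart R S k) =
      ∑ p : I, ∑ q : I', if d p + d' q = k then 1 else 0 := by
    intro k
    rw [finrank_gr hint.submodule_iSupIndep (b.tensorProduct b') (fun p => d p.1 + d' p.2)
      (fun p => by
        rw [tensor_part_eq hR hS hb hb']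
        exact Submodule.subset_span ⟨p, rfl, rfl⟩) k,
      ← Fintype.sum_prod_type' (f := fun (p : I) (q : I') => if d p + d' q = k then 1 else 0),
      Nat.card_eq_fintype_card, Fintype.card_subtype, Finset.card_filter]
  rw [hcount, hcount]
  have h3 : ∀ p : I, (∑ q : I', if d p + d' q = k then 1 else 0) =
      ∑ q : I', if d p + (S.soc - d' q) = k then 1 else 0 := fun p =>
    sum_reflect hS hb' (fun t => if d p + t = k then 1 else 0)
  rw [Finset.sum_congr rfl fun p _ => h3 p]
  have h4 := sum_reflect hR hb (fun t => ∑ q : I', if t + (S.soc - d' q) = k then 1 else 0)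
  rw [h4]
  refine Finset.sum_congr rfl fun p _ => Finset.sum_congr rfl fun q _ => ?_
  have h5 := deg_le hR hb p
  have h6 := deg_le hS hb' q
  have h7 : (R.soc - d p + (S.soc - d' q) = k) ↔ (d p + d' q = R.soc + S.soc - k) := by omega
  simp only [h7]

theorem isSymm_tensor [CharZero K] (hR : IsSymm R) (hS : IsSymm S) : IsSymm (tensor R S) := by
  classical
  obtain ⟨I, _, a, d, ⟨b, e, h, -, hb⟩, -, -⟩ := exists_adp hR (zero_mem (R.part 1))
  obtain ⟨I', _, a', d', ⟨b', e', h', -, hb'⟩, -, -⟩ := exists_adp hS (zero_mem (S.part 1))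
  have hint : DirectSum.IsInternal (tpart R S) :=
    internal_of_basis (b.tensorProduct b') (fun p => d p.1 + d' p.2) (tensor_part_eq hR hS hb hb')
  have hfR := hR.finite
  have hfS := hS.finite
  have hnt : Nontrivial (R.A ⊗[K] S.A) := by
    have := hR.nontrivial
    have := hS.nontrivial
    obtain ⟨p⟩ := b.index_nonempty
    obtain ⟨q⟩ := b'.index_nonempty
    exact ⟨⟨(b.tensorProduct b') (p, q), 0, (b.tensorProduct b').ne_zero _⟩⟩
  exact {
    finite := Module.Finite.tensorProduct K R.A S.A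
    internal := hint
    mul := tpart_mul hR hS hb hb'
    conn := tpart_conn hR hS
    nontrivial := hnt
    zero := tpart_zero hR hS
    symm := tpart_symm hR hS hb hb' hint }

theorem isTensor_tensor (R S : GrAlg.{u, v} K) : IsTensor R S (tensor R S) := by
  refine ⟨rfl, AlgEquiv.refl, fun i j x y hx hy => ?_⟩
  exact tpart_mem rfl hx hy

end Pool.Agent.X306.LP
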