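import Pool.Agent.X306.LP.Defs

/-!
# Tensor products of graded algebras and complete intersections: definitions
-/

set_option autoImplicit false

open Module TensorProduct

universe u v

namespace Pool.Agent.X306.LP

variable {K : Type u} [Field K]

/-- The tensors `x ⊗ y` with `x ∈ R_i`, `y ∈ S_j`, `i + j = k`. -/
def pures (R S : GrAlg.{u, v} K) (k : ℕ) : Set (R.A ⊗[K] S.A) :=
  {t | ∃ (i j : ℕ) (x : R.A) (y : S.A), i + j = k ∧ x ∈ R.part i ∧ y ∈ S.part j ∧ t = x ⊗ₜ y}

/-- The part of degree `k` of `R ⊗ S`: the sum of the `R_i ⊗ S_j`, `i + j = k`. -/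
noncomputable def tpart (R S : GrAlg.{u, v} K) (k : ℕ) : Submodule K (R.A ⊗[K] S.A) :=
  Submodule.span K (pures R S k)

/-- The tensor product `R ⊗ S` with its grading. -/
noncomputable def tensor (R S : GrAlg.{u, v} K) : GrAlg.{u, v} K where
  A := R.A ⊗[K] S.A
  part := tpart R S
  soc := R.soc + S.soc

/-- All the algebras in `C` have the strong Lefschetz property if and only if for some function `f`
with `f(s) √s → ∞` every `R` in `C` has a linear form `l` with `right(R, l) ≥ f(soc R) · dim R`. -/
def Criterion (C : Set (GrAlg.{u, v} K)) : Prop :=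
  (∀ R ∈ C, HasSLP R) ↔ ∃ f : ℕ → ℝ,
    Filter.Tendsto (fun s : ℕ => f s * √(s : ℝ)) Filter.atTop Filter.atTop ∧ RightPart C f

/-- `B ⊗ A ⊗ ... ⊗ A` with `n` factors `A`. -/
noncomputable def tpow (B A : GrAlg.{u, v} K) : ℕ → GrAlg.{u, v} K
  | 0 => B
  | n + 1 => tensor (tpow B A n) A

/-- `R = K[X_i, i ∈ σ] / (f_i, i ∈ σ)` as graded algebras, where `σ` is a finite set and the `f_i`
are forms of positive degrees in the set `D` (as many forms as variables). -/
def IsCIAlg (D : Set ℕ) (R : GrAlg.{u, v} K) : Prop :=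
  ∃ (σ : Type) (_ : Fintype σ) (f : σ → MvPolynomial σ K) (π : MvPolynomial σ K →ₐ[K] R.A),
    (∀ j, ∃ d ∈ D, 1 ≤ d ∧ (f j).IsHomogeneous d) ∧ Function.Surjective π ∧
    RingHom.ker π = Ideal.span (Set.range f) ∧
    ∀ i, R.part i = (MvPolynomial.homogeneousSubmodule σ K i).map π.toLinearMap

/-- The class of the graded Artinian complete intersections over `K` with generators of degrees in
`D` (the condition `IsSymm R`, in which `soc R` is the socle degree, is automatic by a classical
theorem of Macaulay). -/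
def CI (K : Type u) [Field K] (D : Set ℕ) : Set (GrAlg.{u, v} K) := {R | IsSymm R ∧ IsCIAlg D R}

end Pool.Agent.X306.LP
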